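import Pool.Agent.Y341.JP.Core

/-!
# Graphs with one dominating star
-/

set_option autoImplicit false

namespace Pool.Agent.Y341.JP

open Finset

variable {V : Type} [Fintype V] [DecidableEq V] {k : ℕ}

variable {a : V → V → ℝ}

theorem exists_index (L : Finset V) : ∃ (f : V → ℕ) (g : ℕ → V → Prop),
    (∀ v ∈ L, ∀ w ∈ L, f v = f w → v = w) ∧ (∀ n < L.card, ∃ v ∈ L, f v = n) ∧ g = fun n v => f v = n
    := by
  classical
  let e := L.equivFin
  refine ⟨fun v => if h : v ∈ L then (e ⟨v, h⟩ : ℕ) else 0, _, ?_, ?_, rfl⟩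
  · intro v hv w hw h
    simp only [hv, hw, dif_pos] at h
    have h2 := e.injective (Fin.ext h)
    exact congrArg Subtype.val h2
  · intro n hn
    refine ⟨(e.symm ⟨n, hn⟩ : L), (e.symm ⟨n, hn⟩).2, ?_⟩
    simp

theorem M_ge_card (h01 : ∀ u v, a u v = 0 ∨ a u v = 1) (hs : ∀ u v, a u v = a v u)
    (c : V → Fin k) (i : Fin k) (x : V) (A : Finset V) (hxA : x ∉ A)
    (hA : ∀ v ∈ A, a x v = 1 ∧ c v = i) : 2 * (A.card : ℝ) ≤ M a c i := by
  have ha0 : ∀ u v, 0 ≤ a u v := fun u v => by rcases h01 u v with h | h <;> rw [h] <;> norm_num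
  have e1 : ∑ u, ∑ v, (if v = x then (if u ∈ A then (1 : ℝ) else 0) else 0) = A.card := by
    rw [sum_two x (fun u _ => if u ∈ A then (1 : ℝ) else 0)]
    simp
  have e2 : ∑ u, ∑ v, (if u = x then (if v ∈ A then (1 : ℝ) else 0) else 0) = A.card := by
    rw [sum_one x (fun _ v => if v ∈ A then (1 : ℝ) else 0)]
    simp
  have e3 : 2 * (A.card : ℝ) = ∑ u, ∑ v, ((if v = x then (if u ∈ A then (1 : ℝ) else 0) else 0) +
      (if u = x then (if v ∈ A then (1 : ℝ) else 0) else 0)) := by
    simp only [sum_add_distrib]
    rw [e1, e2]; ring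
  rw [e3]
  unfold M
  refine sum_le_sum fun u _ => sum_le_sum fun v _ => ?_
  have h0 : 0 ≤ a u v * (if c u = i ∨ c v = i then (1 : ℝ) else 0) :=
    mul_nonneg (ha0 _ _) (by split_ifs <;> norm_num)
  by_cases hv : v = x
  · by_cases hu : u = x
    · rw [hv, hu]
      rw [hv, hu] at h0
      simpa [hxA] using h0
    · by_cases huA : u ∈ A
      · have := hA u huA
        rw [hv, hs u x, this.1]
        simp [huA, hu, this.2]
      · have g1 : (if v = x then (if u ∈ A then (1 : ℝ) else 0) else 0) = 0 := by
          rw [if_pos hv, if_neg huA]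
        have g2 : (if u = x then (if v ∈ A then (1 : ℝ) else 0) else 0) = 0 := if_neg hu
        rw [g1, g2, add_zero]
        exact h0
  · by_cases hu : u = x
    · by_cases hvA : v ∈ A
      · have := hA v hvA
        rw [hu, this.1]
        simp [hvA, hv, this.2]
      · have g1 : (if v = x then (if u ∈ A then (1 : ℝ) else 0) else 0) = 0 := if_neg hv
        have g2 : (if u = x then (if v ∈ A then (1 : ℝ) else 0) else 0) = 0 := by
          rw [if_pos hu, if_neg hvA]
        rw [g1, g2, add_zero]
        exact h0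
    · simpa [hv, hu] using h0

theorem star_regime (h01 : ∀ u v, a u v = 0 ∨ a u v = 1) (h0 : ∀ u, a u u = 0)
    (hs : ∀ u v, a u v = a v u) (hk : 3 ≤ k) (x : V) (T : ℕ)
    (hT : 2 * ((k : ℝ) - 1) * T ≤ ∑ u, ∑ v, a u v)
    (hx : 3 * (∑ u, ∑ v, a u v - 2 * ∑ v, a x v) * ((k : ℝ) - 1) ≤ ∑ u, ∑ v, a u v) :
    ∃ c : V → Fin k, ∀ i, 2 * (T : ℝ) ≤ M a c i := by
  classical
  have hk' : (3 : ℝ) ≤ k := by exact_mod_cast hk
  have ha0 : ∀ u v, 0 ≤ a u v := fun u v => by rcases h01 u v with h | h <;> rw [h] <;> norm_num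
  have ha1 : ∀ u v, a u v ≤ 1 := fun u v => by rcases h01 u v with h | h <;> rw [h] <;> norm_num
  set D := ∑ u, ∑ v, a u v with hD
  set d := ∑ v, a x v with hd
  have hD0 : 0 ≤ D := sum_nonneg fun u _ => sum_nonneg fun v _ => ha0 u v
  rcases Nat.eq_zero_or_pos T with hT0 | hTpos
  · refine ⟨fun _ => ⟨0, by omega⟩, fun i => ?_⟩
    rw [hT0]
    simp only [Nat.cast_zero, mul_zero]
    exact sum_nonneg fun u _ => sum_nonneg fun v _ => mul_nonneg (ha0 u v)
      (by split_ifs <;> norm_num)
  -- the pendant neighbours of `x`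
  set L := univ.filter (fun v => a x v = 1 ∧ ∑ u, a v u = 1) with hL
  have hLone : ∀ u ∈ L, ∀ v, a u v = 1 → v = x := by
    intro u hu v huv
    by_contra hne
    rw [hL, mem_filter] at hu
    have h1 : a u x = 1 := by rw [hs]; exact hu.2.1
    have h2 : ∑ w ∈ {v, x}, a u w ≤ ∑ w, a u w :=
      sum_le_sum_of_subset_of_nonneg (subset_univ _) fun w _ _ => ha0 u w
    rw [sum_pair hne, huv, h1, hu.2.2] at h2
    norm_num at h2
  have hxL : x ∉ L := by
    intro h
    rw [hL, mem_filter, h0] at h
    norm_num at h
  have hdeg2 : ∀ v, a x v = 1 → v ∉ L → 2 ≤ ∑ u, a v u := by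
    intro v hv hvL
    have h1 : a v x = 1 := by rw [hs]; exact hv
    by_contra hlt
    push Not at hlt
    apply hvL
    rw [hL, mem_filter]
    refine ⟨mem_univ _, hv, ?_⟩
    rw [← add_sum_erase univ _ (mem_univ x), h1] at hlt ⊢
    have h2 : ∀ u ∈ univ.erase x, a v u = 0 := by
      intro u hu
      rcases h01 v u with h | h
      · exact h
      · exfalso
        have h3 := single_le_sum (f := fun u => a v u) (fun w _ => ha0 v w) hu
        simp only [h] at h3
        linarith
    rw [sum_eq_zero h2, add_zero]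
  have hLcard : 3 * d - D ≤ L.card := by
    have h1 : D = d + ∑ u ∈ univ.erase x, ∑ v, a u v := by
      rw [hD, hd, ← add_sum_erase univ _ (mem_univ x)]
    have h2 : ∑ u ∈ univ.erase x, (2 * a x u - if u ∈ L then (1 : ℝ) else 0) ≤
        ∑ u ∈ univ.erase x, ∑ v, a u v := by
      refine sum_le_sum fun u _ => ?_
      have hnn : 0 ≤ ∑ v, a u v := sum_nonneg fun v _ => ha0 u v
      rcases h01 x u with h | h
      · rw [h]
        split_ifs <;> linarith
      · by_cases hu : u ∈ L
        · rw [if_pos hu, h]
          rw [hL, mem_filter] at hu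
          rw [hu.2.2]; norm_num
        · rw [if_neg hu, h]
          have := hdeg2 u h hu
          linarith
    rw [sum_sub_distrib, ← mul_sum] at h2
    have h3 : ∑ u ∈ univ.erase x, a x u = d := by
      rw [hd, ← add_sum_erase univ _ (mem_univ x), h0, zero_add]
    have h4 : ∑ u ∈ univ.erase x, (if u ∈ L then (1 : ℝ) else 0) = L.card := by
      rw [sum_ite_mem, sum_const, nsmul_eq_mul, mul_one]
      congr 2
      ext u
      simp only [mem_inter, mem_erase, mem_univ, and_true]
      exact ⟨fun h => h.2, fun h => ⟨fun h' => hxL (h' ▸ h), h⟩⟩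
    rw [h3, h4] at h2
    linarith
  have hp : (k - 2) * T ≤ L.card := by
    have h1 : (((k - 2 : ℕ) : ℝ)) = (k : ℝ) - 2 := by rw [Nat.cast_sub (by omega)]; simp
    have h2 : ((k : ℝ) - 2) * T ≤ L.card := by
      refine le_trans ?_ hLcard
      have hk1 : (0 : ℝ) < k - 1 := by linarith
      have h3 : 3 * (D - 2 * d) * (k - 1) ≤ D := hx
      have h4 : ((k : ℝ) - 1) * (2 * (((k : ℝ) - 2) * T)) ≤ ((k : ℝ) - 1) * (2 * (3 * d - D)) := by
        have h5 := mul_le_mul_of_nonneg_left hT (by linarith : (0 : ℝ) ≤ (k : ℝ) - 2)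
        nlinarith
      have h6 := le_of_mul_le_mul_left h4 hk1
      linarith
    rw [← h1] at h2
    exact_mod_cast h2
  obtain ⟨f, _, hfinj, hfsurj, _⟩ := exists_index L
  set cn : V → ℕ := fun v => if v ∈ L ∧ f v < (k - 2) * T then 2 + f v / T else
    (if v = x then 0 else 1) with hcn
  have hcnk : ∀ v, cn v < k := by
    intro v
    rw [hcn]
    simp only
    split_ifs with h1 h2
    · have h8 : f v / T < k - 2 := Nat.div_lt_of_lt_mul (by rw [mul_comm]; exact h1.2)
      have h9 : 2 + f v / T < 2 + (k - 2) := Nat.add_lt_add_left h8 2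
      have h10 : 2 + (k - 2) = k := by omega
      rw [h10] at h9
      exact h9
    · omega
    · omega
  have hcnx : cn x = 0 := by rw [hcn]; simp [hxL]
  have hcn0 : ∀ v, cn v = 0 → v = x := by
    intro v hv
    rw [hcn] at hv
    simp only at hv
    split_ifs at hv with h1 h2
    · have h9 := Nat.le_add_right 2 (f v / T)
      rw [hv] at h9
      exact absurd h9 (by norm_num)
    · exact h2
  have hcn2 : ∀ v, 2 ≤ cn v → v ∈ L ∧ f v < (k - 2) * T := by
    intro v hv
    rw [hcn] at hv
    simp only at hv
    split_ifs at hv with h1 h2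
    · exact h1
    · omega
    · omega
  set c : V → Fin k := fun v => ⟨cn v, hcnk v⟩ with hc
  have hdD : 5 * D ≤ 12 * d := by
    have h3 : 3 * (D - 2 * d) * (k - 1) ≤ D := hx
    by_contra h
    push Not at h
    have h4 : 0 ≤ D - 2 * d - D / 6 := by linarith
    have h5 : 0 ≤ (D - 2 * d) * ((k : ℝ) - 3) := mul_nonneg (by linarith) (by linarith)
    nlinarith
  have hTD : 4 * (T : ℝ) ≤ D := by
    have : 0 ≤ ((k : ℝ) - 3) * T := mul_nonneg (by linarith) (Nat.cast_nonneg _)
    nlinarith
  refine ⟨c, fun i => ?_⟩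
  rcases Nat.lt_or_ge (i : ℕ) 2 with hi | hi
  · rcases Nat.eq_zero_or_pos (i : ℕ) with hi0 | hi1
    · -- the class of `x`
      have hcx : c x = i := Fin.ext (by rw [hc]; simp only; rw [hcnx, hi0])
      have h1 : 2 * d ≤ M a c i := by
        have e1 : ∑ u, ∑ v, (if v = x then a u v else 0) = d := by
          rw [sum_two x (fun u v => a u v), hd]
          exact sum_congr rfl fun u _ => hs u x
        have e2 : ∑ u, ∑ v, (if u = x then a u v else 0) = d := sum_one x (fun u v => a u v)
        have e3 : 2 * d = ∑ u, ∑ v, ((if v = x then a u v else 0) +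
            (if u = x then a u v else 0)) := by
          simp only [sum_add_distrib]
          rw [e1, e2]; ring
        rw [e3]
        unfold M
        refine sum_le_sum fun u _ => sum_le_sum fun v _ => ?_
        by_cases hu : u = x
        · by_cases hv : v = x
          · rw [hu, hv, h0]; simp
          · rw [hu]; simp [hv, hcx]
        · by_cases hv : v = x
          · rw [hv]; simp [hu, hcx]
          · simp only [hu, hv, if_false, add_zero]
            exact mul_nonneg (ha0 _ _) (by split_ifs <;> norm_num)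
      linarith
    · -- the class with all other vertices
      have hi1' : (i : ℕ) = 1 := by omega
      have h1 : D ≤ M a c i + 2 * ((univ.filter (fun v => 2 ≤ cn v)).card : ℝ) := by
        set A := univ.filter (fun v => 2 ≤ cn v) with hA
        have e1 : ∑ u, ∑ v, (if v = x then (if u ∈ A then (1 : ℝ) else 0) else 0) = A.card := by
          rw [sum_two x (fun u _ => if u ∈ A then (1 : ℝ) else 0)]
          simp
        have e2 : ∑ u, ∑ v, (if u = x then (if v ∈ A then (1 : ℝ) else 0) else 0) = A.card := by
          rw [sum_one x (fun _ v => if v ∈ A then (1 : ℝ) else 0)]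
          simp
        have e3 : M a c i + 2 * (A.card : ℝ) = ∑ u, ∑ v,
            (a u v * (if c u = i ∨ c v = i then (1 : ℝ) else 0) +
            (if v = x then (if u ∈ A then (1 : ℝ) else 0) else 0) +
            (if u = x then (if v ∈ A then (1 : ℝ) else 0) else 0)) := by
          simp only [sum_add_distrib]
          rw [e1, e2]; unfold M; ring
        rw [e3]
        refine sum_le_sum fun u _ => sum_le_sum fun v _ => ?_
        have hq1 : 0 ≤ (if v = x then (if u ∈ A then (1 : ℝ) else 0) else 0) := by
          split_ifs <;> norm_num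
        have hq2 : 0 ≤ (if u = x then (if v ∈ A then (1 : ℝ) else 0) else 0) := by
          split_ifs <;> norm_num
        have hq0 : 0 ≤ a u v * (if c u = i ∨ c v = i then (1 : ℝ) else 0) :=
          mul_nonneg (ha0 _ _) (by split_ifs <;> norm_num)
        rcases h01 u v with h | h
        · rw [h] at hq0 ⊢
          linarith
        by_cases hor : c u = i ∨ c v = i
        · rw [if_pos hor, mul_one]
          linarith
        rw [not_or] at hor
        have hu1 : cn u ≠ 1 := fun h' => hor.1 (Fin.ext (by rw [hc]; simp only; rw [h', hi1']))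
        have hv1 : cn v ≠ 1 := fun h' => hor.2 (Fin.ext (by rw [hc]; simp only; rw [h', hi1']))
        by_cases hu2 : 2 ≤ cn u
        · have hvx : v = x := hLone u (hcn2 u hu2).1 v h
          have huA : u ∈ A := by rw [hA, mem_filter]; exact ⟨mem_univ _, hu2⟩
          have : (if v = x then (if u ∈ A then (1 : ℝ) else 0) else 0) = 1 := by
            rw [if_pos hvx, if_pos huA]
          linarith
        · have hux : u = x := hcn0 u (by omega)
          have hv2 : 2 ≤ cn v := by
            by_contra h'
            have hvx : v = x := hcn0 v (by omega)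
            rw [hux, hvx, h0] at h
            norm_num at h
          have hvA : v ∈ A := by rw [hA, mem_filter]; exact ⟨mem_univ _, hv2⟩
          have : (if u = x then (if v ∈ A then (1 : ℝ) else 0) else 0) = 1 := by
            rw [if_pos hux, if_pos hvA]
          linarith
      have h2 : (univ.filter (fun v => 2 ≤ cn v)).card ≤ (k - 2) * T := by
        rw [← card_range ((k - 2) * T)]
        refine card_le_card_of_injOn f ?_ ?_
        · intro v hv
          have hv' : v ∈ univ.filter (fun v => 2 ≤ cn v) := hv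
          rw [mem_filter] at hv'
          exact mem_coe.2 (mem_range.2 (hcn2 v hv'.2).2)
        · intro v hv w hw h
          have hv' : v ∈ univ.filter (fun v => 2 ≤ cn v) := hv
          have hw' : w ∈ univ.filter (fun v => 2 ≤ cn v) := hw
          rw [mem_filter] at hv' hw'
          exact hfinj v (hcn2 v hv'.2).1 w (hcn2 w hw'.2).1 h
      have h3 : ((univ.filter (fun v => 2 ≤ cn v)).card : ℝ) ≤ ((k : ℝ) - 2) * T := by
        have h4 : (((k - 2 : ℕ) : ℝ)) = (k : ℝ) - 2 := by rw [Nat.cast_sub (by omega)]; simp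
        rw [← h4]
        exact_mod_cast h2
      nlinarith
  · -- a class of pendant vertices
    obtain ⟨j, hj⟩ : ∃ j, (i : ℕ) = 2 + j := ⟨i - 2, by omega⟩
    have hjk : j + 1 ≤ k - 2 := by have := i.2; omega
    have hle : (j + 1) * T ≤ (k - 2) * T := Nat.mul_le_mul_right _ hjk
    have hex : ∀ t : Fin T, ∃ v ∈ L, f v = j * T + t := fun t => hfsurj _ (by
      have := t.2
      nlinarith)
    choose g hgL hgf using hex
    have hginj : Function.Injective g := by
      intro s t h
      have h1 := hgf s
      rw [h, hgf t] at h1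
      exact Fin.ext (by omega)
    have hcard : (univ.image g).card = T := by
      rw [card_image_of_injective _ hginj, card_univ, Fintype.card_fin]
    have h1 := M_ge_card h01 hs c i x (univ.image g) (by
      intro h
      rw [mem_image] at h
      obtain ⟨t, _, ht⟩ := h
      exact hxL (ht ▸ hgL t)) (by
      intro v hv
      rw [mem_image] at hv
      obtain ⟨t, _, rfl⟩ := hv
      have h2 := hgL t
      refine ⟨by rw [hL, mem_filter] at h2; exact h2.2.1, Fin.ext ?_⟩
      have h3 : f (g t) < (k - 2) * T := by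
        rw [hgf]
        have := t.2
        nlinarith
      have h4 : cn (g t) = 2 + f (g t) / T := by
        rw [hcn]
        simp only
        rw [if_pos ⟨h2, h3⟩]
      rw [hc]
      simp only
      rw [h4, hj, hgf]
      have h5 : (j * T + (t : ℕ)) / T = j := by
        rw [mul_comm, Nat.mul_add_div hTpos, Nat.div_eq_of_lt t.2, add_zero]
      rw [h5])
    rw [hcard] at h1
    exact h1

end Pool.Agent.Y341.JP
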