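import Pool.Agent.Y341.JP.Scheme
import Pool.Agent.Y341.JP.Star

/-!
# The exact bound for many edges
-/

set_option autoImplicit false

namespace Pool.Agent.Y341.JP

open Finset

variable {V : Type} [Fintype V] [DecidableEq V] {k : ℕ}

variable {a : V → V → ℝ}

theorem gt_eq_gs (B : Finset V) : gt a B = gs a B B := by
  unfold gt gs
  rw [← sum_subset (subset_univ B)]
  · refine sum_congr rfl fun u hu => sum_congr rfl fun v _ => ?_
    have : tt B u = 0 := by unfold tt; rw [if_pos hu]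
    rw [this]; ring
  · intro u _ hu
    refine sum_eq_zero fun v _ => ?_
    have : tt B u = 1 := by unfold tt; rw [if_neg hu]
    rw [this]; ring

theorem ineq_h5 {γ θ : ℝ} (hγ : 0 ≤ γ) (hθ : 0 ≤ θ) (hθ1 : θ ≤ 1 / 24)
    (h : θ ^ 2 = 144 * γ) : 1 - 4 * θ ≤ (1 - θ) * ((1 - 9 * γ) * (1 - γ / 4)) := by
  have h6 : 144 * γ ≤ θ / 24 := by rw [← h]; nlinarith
  have e : (1 - θ) * ((1 - 9 * γ) * (1 - γ / 4)) - (1 - 4 * θ) =
      3 * θ - 37 / 4 * γ + (1 - θ) * (9 * γ ^ 2 / 4) + 37 / 4 * (θ * γ) := by ring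
  have h7 : 0 ≤ (1 - θ) * (9 * γ ^ 2 / 4) := mul_nonneg (by linarith) (by positivity)
  have h8 : 0 ≤ 37 / 4 * (θ * γ) := by positivity
  linarith

theorem nonstar_core (h01 : ∀ u v, a u v = 0 ∨ a u v = 1) (h0 : ∀ u, a u u = 0)
    (hs : ∀ u v, a u v = a v u) (hk : 3 ≤ k) {r : ℝ} (hr0 : 0 < r)
    (hr : ∑ u, ∑ v, a u v = r ^ 2)
    (hrk : 55296 * (k : ℝ) * ((k : ℝ) - 1) ^ 3 ≤ (1 / (20736 * ((k : ℝ) - 1) ^ 2)) ^ 2 * r)
    (hst : ∀ x, ∑ u, ∑ v, a u v ≤
      3 * (∑ u, ∑ v, a u v - 2 * ∑ v, a x v) * ((k : ℝ) - 1)) :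
    ∃ c : V → Fin k, ∀ i, (1 + 1 / (20736 * ((k : ℝ) - 1) ^ 2) / 4) * ∑ u, ∑ v, a u v ≤
      ((k : ℝ) - 1) * M a c i := by
  classical
  have hk' : (3 : ℝ) ≤ k := by exact_mod_cast hk
  have ha0 : ∀ u v, 0 ≤ a u v := fun u v => by rcases h01 u v with h | h <;> rw [h] <;> norm_num
  set D := ∑ u, ∑ v, a u v with hD
  set κ : ℝ := (k : ℝ) - 1 with hκ
  have hκ2 : 2 ≤ κ := by linarith
  have hκ0 : 0 < κ := by linarith
  set γ : ℝ := 1 / (20736 * κ ^ 2) with hγ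
  have hγ0 : 0 < γ := by positivity
  have hγ1 : γ ≤ 1 / 82944 := by
    rw [hγ]
    refine div_le_div_of_nonneg_left (by norm_num) (by norm_num) ?_
    nlinarith
  have hDpos : 0 < D := by rw [hr]; positivity
  set δ : ℝ := 288 * κ * r with hδ
  have hr1 : 1 ≤ r := by
    have h1 : (1 : ℝ) ≤ 55296 * (k : ℝ) * κ ^ 3 := by
      have : (1 : ℝ) ≤ κ ^ 3 := one_le_pow₀ (by linarith)
      nlinarith
    have h2 : γ ^ 2 ≤ 1 := by nlinarith
    have h3 : γ ^ 2 * r ≤ r := by nlinarith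
    linarith
  have hδ1 : 1 ≤ δ := by
    rw [hδ]; nlinarith
  have hδ0 : 0 < δ := by linarith
  set s := Real.sqrt (12 * k * δ * D) with hs'
  have hsle : κ * s ≤ γ / 4 * D := by
    have h1 : s ≤ γ * D / (4 * κ) := by
      rw [hs']
      refine Real.sqrt_le_iff.2 ⟨by positivity, ?_⟩
      have e : (γ * D / (4 * κ)) ^ 2 = (γ ^ 2 * r) * (r ^ 3 / (16 * κ ^ 2)) := by
        rw [hr]; field_simp
        norm_num
      rw [e]
      have e2 : 12 * (k : ℝ) * δ * D = (55296 * (k : ℝ) * κ ^ 3) * (r ^ 3 / (16 * κ ^ 2)) := by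
        rw [hr, hδ]; field_simp
        norm_num
      rw [e2]
      exact mul_le_mul_of_nonneg_right hrk (by positivity)
    have h2 := mul_le_mul_of_nonneg_left h1 hκ0.le
    refine h2.trans (le_of_eq ?_)
    field_simp
  set B := univ.filter (fun w => δ < ∑ v, a w v) with hB
  have hBn : ∀ w, w ∉ B → ∑ v, a w v ≤ δ := by
    intro w hw
    by_contra h
    push Not at h
    exact hw (by rw [hB, mem_filter]; exact ⟨mem_univ _, h⟩)
  have hcard : (B.card : ℝ) ≤ D / δ := by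
    rw [le_div_iff₀ hδ0]
    calc (B.card : ℝ) * δ = ∑ w ∈ B, δ := by rw [sum_const, nsmul_eq_mul]
      _ ≤ ∑ w ∈ B, ∑ v, a w v := sum_le_sum fun w hw => by
          rw [hB, mem_filter] at hw
          exact hw.2.le
      _ ≤ D := sum_le_sum_of_subset_of_nonneg (subset_univ _) fun w _ _ =>
          sum_nonneg fun v _ => ha0 w v
  have hBsq : (B.card : ℝ) ^ 2 ≤ γ / 4 * D := by
    have h1 : (B.card : ℝ) ^ 2 ≤ (D / δ) ^ 2 := pow_le_pow_left₀ (Nat.cast_nonneg _) hcard 2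
    refine h1.trans (le_of_eq ?_)
    rw [hδ, hγ, hr]
    field_simp
    norm_num
  have hNle := D_le h01 hs B
  have hom := om_nonneg h01 B
  have hgt := gt_nonneg h01 B
  rw [← hD] at hNle
  set N := om a B + 2 * gt a B with hN
  have hND : (1 - γ / 4) * D ≤ N := by linarith
  have hNpos : 0 < N := by nlinarith
  -- it suffices to beat `D`
  have hfin : ∀ c : V → Fin k, (∀ i, (1 + γ / 2) * D ≤ κ * (M a c i + s)) →
      ∀ i, (1 + γ / 4) * D ≤ κ * M a c i := by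
    intro c hc i
    have h1 := hc i
    have e : κ * (M a c i + s) = κ * M a c i + κ * s := by ring
    rw [e] at h1
    linarith
  by_cases hom2 : 9 * γ * N ≤ om a B
  · obtain ⟨c, hc⟩ := scheme_one h01 h0 hs hk B hδ1 hBn (by positivity : (0 : ℝ) ≤ 9 * γ) hom2
    refine ⟨c, hfin c fun i => le_trans ?_ (hc i)⟩
    have h1 : (1 + 9 * γ / 9) * ((1 - γ / 4) * D) ≤ (1 + 9 * γ / 9) * N :=
      mul_le_mul_of_nonneg_left hND (by positivity)
    refine le_trans ?_ h1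
    have h2 : 1 + γ / 2 ≤ (1 + 9 * γ / 9) * (1 - γ / 4) := by nlinarith
    have h3 := mul_le_mul_of_nonneg_right h2 hDpos.le
    linarith
  · push Not at hom2
    set θ : ℝ := 1 / (12 * κ) with hθ
    have hθ0 : 0 < θ := by positivity
    have hθ1 : θ ≤ 1 / 24 := by
      rw [hθ]
      exact div_le_div_of_nonneg_left (by norm_num) (by norm_num) (by linarith)
    have hθγ : θ ^ 2 = 144 * γ := by
      rw [hθ, hγ]; field_simp; norm_num
    have hg2 : (1 - 9 * γ) * N ≤ 2 * gt a B := by linarith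
    have hg3 : (1 - 9 * γ) * ((1 - γ / 4) * D) ≤ 2 * gt a B :=
      le_trans (mul_le_mul_of_nonneg_left hND (by linarith)) hg2
    have hgpos : 0 < gt a B := by
      have : 0 < (1 - 9 * γ) * N := mul_pos (by linarith) hNpos
      linarith
    have hgB : ∑ x ∈ B, ∑ v, a x v * tt B v = gt a B := by rw [gt_eq_gs]; rfl
    obtain ⟨S, hSB, hS1, hS2⟩ := exists_subset B (fun x => ∑ v, a x v * tt B v)
      (fun x => sum_nonneg fun v _ => mul_nonneg (ha0 x v) (tt_nonneg B v)) (θ := θ)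
      (by linarith) (by rw [hgB]; exact hgpos) (fun x _ => by
        rw [hgB]
        have h1 : ∑ v, a x v * tt B v ≤ ∑ v, a x v := sum_le_sum fun v _ =>
          mul_le_of_le_one_right (ha0 x v) (tt_le_one B v)
        have h2 := hst x
        -- `deg x < (D / 2) (1 - 1 / (3 κ))`
        have h3 : 2 * ∑ v, a x v ≤ (1 - 4 * θ) * D := by
          have e : 4 * θ * (3 * κ) = 1 := by rw [hθ]; field_simp; norm_num
          have h4 : D * (4 * θ) ≤ (3 * (D - 2 * ∑ v, a x v) * κ) * (4 * θ) :=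
            mul_le_mul_of_nonneg_right h2 (by positivity)
          have e2 : (3 * (D - 2 * ∑ v, a x v) * κ) * (4 * θ) =
              (D - 2 * ∑ v, a x v) * (4 * θ * (3 * κ)) := by ring
          rw [e2, e] at h4
          linarith
        have h5 : (1 - 4 * θ) ≤ (1 - θ) * ((1 - 9 * γ) * (1 - γ / 4)) := by
          exact ineq_h5 hγ0.le hθ0.le hθ1 hθγ
        have h7 := mul_le_mul_of_nonneg_right h5 hDpos.le
        have h8 := mul_le_mul_of_nonneg_left hg3 (by linarith : (0 : ℝ) ≤ 1 - θ)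
        linarith)
    rw [hgB] at hS1 hS2
    obtain ⟨c, hc⟩ := scheme_two h01 h0 hs hk B S hSB hδ1 hBn hθ0.le (by linarith)
      (by rw [hθ]; rw [← hκ]; field_simp; norm_num) hS1 hS2
    refine ⟨c, hfin c fun i => le_trans ?_ (hc i)⟩
    rw [hθγ]
    have h1 : (1 + 144 * γ / 4) * ((1 - 9 * γ) * ((1 - γ / 4) * D)) ≤
        (1 + 144 * γ / 4) * (2 * gt a B) := mul_le_mul_of_nonneg_left hg3 (by positivity)
    refine le_trans ?_ h1
    have h2 : 1 + γ / 2 ≤ (1 + 144 * γ / 4) * ((1 - 9 * γ) * (1 - γ / 4)) := by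
      have e : (1 + 144 * γ / 4) * ((1 - 9 * γ) * (1 - γ / 4)) - (1 + γ / 2) =
          γ * (105 / 4 - 1323 / 4 * γ + 81 * γ ^ 2) := by ring
      have : 0 ≤ γ * (105 / 4 - 1323 / 4 * γ + 81 * γ ^ 2) := by
        refine mul_nonneg hγ0.le ?_
        nlinarith [sq_nonneg γ]
      linarith
    have h3 := mul_le_mul_of_nonneg_right h2 hDpos.le
    linarith

theorem exact_core (h01 : ∀ u v, a u v = 0 ∨ a u v = 1) (h0 : ∀ u, a u u = 0)
    (hs : ∀ u v, a u v = a v u) (hk : 3 ≤ k) (T : ℕ)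
    (hT : 2 * ((k : ℝ) - 1) * T ≤ ∑ u, ∑ v, a u v) {r : ℝ} (hr0 : 0 < r)
    (hr : ∑ u, ∑ v, a u v = r ^ 2)
    (hrk : 55296 * (k : ℝ) * ((k : ℝ) - 1) ^ 3 ≤ (1 / (20736 * ((k : ℝ) - 1) ^ 2)) ^ 2 * r) :
    ∃ c : V → Fin k, ∀ i, 2 * (T : ℝ) ≤ M a c i := by
  classical
  have hk' : (3 : ℝ) ≤ k := by exact_mod_cast hk
  by_cases hst : ∃ x, 3 * (∑ u, ∑ v, a u v - 2 * ∑ v, a x v) * ((k : ℝ) - 1) ≤
      ∑ u, ∑ v, a u v
  · obtain ⟨x, hx⟩ := hst
    exact star_regime h01 h0 hs hk x T hT hx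
  push Not at hst
  obtain ⟨c, hc⟩ := nonstar_core h01 h0 hs hk hr0 hr hrk (fun x => (hst x).le)
  refine ⟨c, fun i => ?_⟩
  have h1 := hc i
  have hκ0 : (0 : ℝ) < (k : ℝ) - 1 := by linarith
  have h2 : 0 ≤ 1 / (20736 * ((k : ℝ) - 1) ^ 2) / 4 * ∑ u, ∑ v, a u v := by
    rw [hr]; positivity
  have h3 : ((k : ℝ) - 1) * (2 * (T : ℝ)) ≤ ((k : ℝ) - 1) * M a c i := by linarith
  exact le_of_mul_le_mul_left h3 hκ0

end Pool.Agent.Y341.JP
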