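import Mathlib

/-!
# Partitions of graphs into `k` classes each meeting about `m / (k - 1)` edges

The extremal argument for a symmetric 0-1 matrix `a` with zero diagonal.
-/

set_option autoImplicit false

namespace Pool.Agent.Y341.JP

open Finset

variable {V : Type} [Fintype V] [DecidableEq V] {k : ℕ}

/-- twice the number of edges meeting the class `i` -/
noncomputable def M (a : V → V → ℝ) (c : V → Fin k) (i : Fin k) : ℝ :=
  ∑ u, ∑ v, a u v * (if c u = i ∨ c v = i then 1 else 0)

/-- the number of edges from `w` to the outside of the class `i` -/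
noncomputable def out (a : V → V → ℝ) (c : V → Fin k) (i : Fin k) (w : V) : ℝ :=
  ∑ v, a w v * (if c v = i then 0 else 1)

theorem sum_one (w : V) (F : V → V → ℝ) :
    ∑ u, ∑ v, (if u = w then F u v else 0) = ∑ v, F w v := by
  rw [Finset.sum_eq_single w]
  · simp
  · intro u _ hu
    simp [hu]
  · simp

theorem sum_two (w : V) (F : V → V → ℝ) :
    ∑ u, ∑ v, (if v = w then F u v else 0) = ∑ u, F u w := by
  refine sum_congr rfl fun u _ => ?_
  simp

variable {a : V → V → ℝ}

theorem move_z (h0 : ∀ u, a u u = 0) (hs : ∀ u v, a u v = a v u) (c : V → Fin k) {w : V}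
    {z : Fin k} (hz : c w ≠ z) :
    M a (Function.update c w z) z = M a c z + 2 * out a c z w := by
  have key : ∀ u v, a u v *
      (if Function.update c w z u = z ∨ Function.update c w z v = z then (1 : ℝ) else 0) =
      a u v * (if c u = z ∨ c v = z then 1 else 0) +
        ((if u = w then a u v * (if c v = z then 0 else 1) else 0) +
          (if v = w then a u v * (if c u = z then 0 else 1) else 0)) := by
    intro u v
    by_cases hu : u = w
    · subst hu
      by_cases hv : v = u
      · subst hv; simp [h0]
      · rw [Function.update_self, Function.update_of_ne hv]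
        by_cases h1 : c v = z <;> simp [h1, hz, hv]
    · by_cases hv : v = w
      · subst hv
        rw [Function.update_self, Function.update_of_ne hu]
        by_cases h1 : c u = z <;> simp [h1, hz, hu]
      · rw [Function.update_of_ne hu, Function.update_of_ne hv]
        simp [hu, hv]
  unfold M out
  simp only [key, sum_add_distrib]
  rw [sum_one w (fun u v => a u v * (if c v = z then 0 else 1)),
    sum_two w (fun u v => a u v * (if c u = z then 0 else 1))]
  have h2 : ∑ u, a u w * (if c u = z then (0 : ℝ) else 1) =
      ∑ v, a w v * (if c v = z then 0 else 1) :=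
    sum_congr rfl fun u _ => by rw [hs u w]
  rw [h2]
  ring

theorem move_i (h0 : ∀ u, a u u = 0) (hs : ∀ u v, a u v = a v u) (c : V → Fin k) {w : V}
    {z : Fin k} (hz : c w ≠ z) :
    M a (Function.update c w z) (c w) = M a c (c w) - 2 * out a c (c w) w := by
  have key : ∀ u v, a u v *
      (if c u = c w ∨ c v = c w then (1 : ℝ) else 0) =
      a u v * (if Function.update c w z u = c w ∨ Function.update c w z v = c w then 1 else 0) +
        ((if u = w then a u v * (if c v = c w then 0 else 1) else 0) +
          (if v = w then a u v * (if c u = c w then 0 else 1) else 0)) := by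
    intro u v
    by_cases hu : u = w
    · subst hu
      by_cases hv : v = u
      · subst hv; simp [h0]
      · rw [Function.update_self, Function.update_of_ne hv]
        by_cases h1 : c v = c u <;> simp [h1, hz.symm, hv]
    · by_cases hv : v = w
      · subst hv
        rw [Function.update_self, Function.update_of_ne hu]
        by_cases h1 : c u = c v <;> simp [h1, hz.symm, hu]
      · rw [Function.update_of_ne hu, Function.update_of_ne hv]
        simp [hu, hv]
  unfold M out
  simp only [key, sum_add_distrib]
  rw [sum_one w (fun u v => a u v * (if c v = c w then 0 else 1)),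
    sum_two w (fun u v => a u v * (if c u = c w then 0 else 1))]
  have h2 : ∑ u, a u w * (if c u = c w then (0 : ℝ) else 1) =
      ∑ v, a w v * (if c v = c w then 0 else 1) :=
    sum_congr rfl fun u _ => by rw [hs u w]
  rw [h2]
  ring

theorem move_j (c : V → Fin k) {w : V} {z j : Fin k} (h1 : j ≠ z) (h2 : j ≠ c w) :
    M a (Function.update c w z) j = M a c j := by
  unfold M
  refine sum_congr rfl fun u _ => sum_congr rfl fun v _ => ?_
  have h : ∀ x, Function.update c w z x = j ↔ c x = j := by
    intro x
    by_cases hx : x = w
    · subst hx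
      rw [Function.update_self]
      exact ⟨fun h => absurd h.symm h1, fun h => absurd h.symm h2⟩
    · rw [Function.update_of_ne hx]
  simp only [h]

theorem card_pair (x y : Fin k) :
    ∑ i, (if x = i ∨ y = i then (1 : ℝ) else 0) = 2 - (if x = y then 1 else 0) := by
  by_cases h : x = y
  · subst h
    simp
    norm_num
  · have e : ∀ i, (if x = i ∨ y = i then (1 : ℝ) else 0) =
        (if x = i then 1 else 0) + (if y = i then 1 else 0) := by
      intro i
      by_cases h1 : x = i
      · have h2 : ¬ y = i := fun h2 => h (h1.trans h2.symm)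
        simp [h1, h2]
      · simp [h1]
    simp only [e, sum_add_distrib, h, if_false]
    simp
    norm_num

theorem core (h01 : ∀ u v, a u v = 0 ∨ a u v = 1) (h0 : ∀ u, a u u = 0)
    (hs : ∀ u v, a u v = a v u) (hk : 3 ≤ k) {T δ : ℝ} (hT : 0 ≤ T) (hδ : 0 < δ)
    (hm : ((∑ u, ∑ v, a u v) / δ) ^ 2 + ((k : ℝ) - 1) * (2 * T + 4 * δ) ≤ ∑ u, ∑ v, a u v) :
    ∃ c : V → Fin k, ∀ i, 2 * T ≤ M a c i := by
  classical
  by_contra hcon
  push Not at hcon
  have ha0 : ∀ u v, 0 ≤ a u v := fun u v => by rcases h01 u v with h | h <;> rw [h] <;> norm_num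
  have ha1 : ∀ u v, a u v ≤ 1 := fun u v => by rcases h01 u v with h | h <;> rw [h] <;> norm_num
  have : Nonempty (Fin k) := ⟨⟨0, by omega⟩⟩
  set D := ∑ u, ∑ v, a u v with hD
  set K := 2 * T + 2 * δ with hK
  set S := 2 * T + 4 * δ with hS
  obtain ⟨c, hc⟩ := Finite.exists_max (fun c : V → Fin k => ∑ i, min (M a c i) K)
  obtain ⟨z, hz⟩ := hcon c
  -- degrees
  have hout0 : ∀ i w, 0 ≤ out a c i w := fun i w =>
    sum_nonneg fun v _ => mul_nonneg (ha0 _ _) (by split_ifs <;> norm_num)
  have houtd : ∀ i w, out a c i w ≤ ∑ v, a w v := fun i w =>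
    sum_le_sum fun v _ => by split_ifs <;> simp [ha0]
  -- the optimality of `c`
  have hop : ∀ w, c w ≠ z → min (M a c z + 2 * out a c z w) K +
      min (M a c (c w) - 2 * out a c (c w) w) K ≤ min (M a c z) K + min (M a c (c w)) K := by
    intro w hw
    have h1 := hc (Function.update c w z)
    have hw' : c w ∈ (univ : Finset (Fin k)).erase z := mem_erase.2 ⟨hw, mem_univ _⟩
    rw [← add_sum_erase _ _ (mem_univ z), ← add_sum_erase univ _ (mem_univ z),
      ← add_sum_erase _ _ hw', ← add_sum_erase (univ.erase z) _ hw', move_z h0 hs c hw,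
      move_i h0 hs c hw] at h1
    have h2 : ∑ x ∈ (univ.erase z).erase (c w), min (M a (Function.update c w z) x) K =
        ∑ x ∈ (univ.erase z).erase (c w), min (M a c x) K := by
      refine sum_congr rfl fun j hj => ?_
      rw [mem_erase, mem_erase] at hj
      rw [move_j c hj.2.1 hj.1]
    rw [h2] at h1
    linarith
  have hMz : min (M a c z) K = M a c z := min_eq_left (by linarith)
  -- vertices of small degree
  have hf1 : ∀ w, ∑ v, a w v ≤ δ → c w ≠ z → out a c z w ≤ out a c (c w) w := by
    intro w hw hwz
    have h1 := hop w hwz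
    have h2 : min (M a c z + 2 * out a c z w) K = M a c z + 2 * out a c z w :=
      min_eq_left (by have := houtd z w; linarith)
    have h3 : min (M a c (c w)) K ≤ min (M a c (c w) - 2 * out a c (c w) w) K +
        2 * out a c (c w) w := by
      have := hout0 (c w) w
      rcases min_cases (M a c (c w) - 2 * out a c (c w) w) K with h | h <;>
        rcases min_cases (M a c (c w)) K with h' | h' <;> linarith
    rw [h2, hMz] at h1
    linarith
  have hf2 : ∀ w, ∑ v, a w v ≤ δ → c w ≠ z → S ≤ M a c (c w) → out a c z w = 0 := by
    intro w hw hwz hS'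
    have h1 := hop w hwz
    have h2 : min (M a c z + 2 * out a c z w) K = M a c z + 2 * out a c z w :=
      min_eq_left (by have := houtd z w; linarith)
    have h3 : min (M a c (c w) - 2 * out a c (c w) w) K = K :=
      min_eq_right (by have := houtd (c w) w; linarith)
    have h4 : min (M a c (c w)) K = K := min_eq_right (by linarith)
    rw [h2, h3, h4, hMz] at h1
    have := hout0 z w
    linarith
  set B := univ.filter (fun w => δ < ∑ v, a w v) with hB
  have hBn : ∀ w, w ∉ B → ∑ v, a w v ≤ δ := by
    intro w hw
    by_contra h
    push Not at h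
    exact hw (by rw [hB, mem_filter]; exact ⟨mem_univ _, h⟩)
  have hBB : ∑ u : V, ∑ v : V, ((if u ∈ B then (1 : ℝ) else 0) * (if v ∈ B then 1 else 0)) =
      (B.card : ℝ) ^ 2 := by
    rw [← sum_mul_sum]
    simp
    ring
  -- the main inequality
  have main : D < (B.card : ℝ) ^ 2 + ((k : ℝ) - 1) * S := by
    have hk' : (3 : ℝ) ≤ k := by exact_mod_cast hk
    have hSpos : 0 ≤ S := by positivity
    by_cases hheavy : ∃ i0, S ≤ M a c i0
    · obtain ⟨i0, hi0⟩ := hheavy
      set L := univ.filter (fun i => M a c i < S) with hL
      have hpt : ∀ u v, a u v ≤ ((if u ∈ B then (1 : ℝ) else 0) * (if v ∈ B then 1 else 0)) +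
          ∑ i ∈ L, a u v * (if c u = i ∨ c v = i then 1 else 0) := by
        intro u v
        have hnn : ∀ i ∈ L, 0 ≤ a u v * (if c u = i ∨ c v = i then (1 : ℝ) else 0) :=
          fun i _ => mul_nonneg (ha0 _ _) (by split_ifs <;> norm_num)
        have hbb : 0 ≤ (if u ∈ B then (1 : ℝ) else 0) * (if v ∈ B then 1 else 0) := by
          split_ifs <;> norm_num
        by_cases hu : c u ∈ L
        · have := single_le_sum hnn hu
          simp only [true_or, if_true, mul_one] at this
          linarith
        by_cases hv : c v ∈ L
        · have := single_le_sum hnn hv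
          simp only [or_true, if_true, mul_one] at this
          linarith
        rcases h01 u v with h | h
        · rw [h]
          have := sum_nonneg hnn
          rw [h] at this
          linarith
        have hSu : S ≤ M a c (c u) := by
          by_contra h'
          push Not at h'
          exact hu (by rw [hL, mem_filter]; exact ⟨mem_univ _, h'⟩)
        have hSv : S ≤ M a c (c v) := by
          by_contra h'
          push Not at h'
          exact hv (by rw [hL, mem_filter]; exact ⟨mem_univ _, h'⟩)
        have hzu : c u ≠ z := fun h' => by rw [h'] at hSu; linarith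
        have hzv : c v ≠ z := fun h' => by rw [h'] at hSv; linarith
        have huB : u ∈ B := by
          by_contra h'
          have h2 := hf2 u (hBn u h') hzu hSu
          unfold out at h2
          rw [sum_eq_zero_iff_of_nonneg (fun v _ => mul_nonneg (ha0 _ _)
            (by split_ifs <;> norm_num))] at h2
          have h3 := h2 v (mem_univ v)
          rw [h, if_neg hzv] at h3
          norm_num at h3
        have hvB : v ∈ B := by
          by_contra h'
          have h2 := hf2 v (hBn v h') hzv hSv
          unfold out at h2
          rw [sum_eq_zero_iff_of_nonneg (fun v _ => mul_nonneg (ha0 _ _)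
            (by split_ifs <;> norm_num))] at h2
          have h3 := h2 u (mem_univ u)
          rw [hs v u, h, if_neg hzu] at h3
          norm_num at h3
        have := sum_nonneg hnn
        rw [if_pos huB, if_pos hvB, h]
        rw [h] at this
        linarith
      have h1 : D ≤ (B.card : ℝ) ^ 2 + ∑ i ∈ L, M a c i := by
        have h2 : D ≤ ∑ u, ∑ v, (((if u ∈ B then (1 : ℝ) else 0) * (if v ∈ B then 1 else 0)) +
            ∑ i ∈ L, a u v * (if c u = i ∨ c v = i then 1 else 0)) :=
          sum_le_sum fun u _ => sum_le_sum fun v _ => hpt u v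
        refine h2.trans (le_of_eq ?_)
        simp only [sum_add_distrib]
        rw [hBB]
        congr 1
        unfold M
        rw [sum_comm (s := L)]
        refine sum_congr rfl fun u _ => ?_
        rw [sum_comm]
      have h3 : ∑ i ∈ L, M a c i < ((k : ℝ) - 1) * S := by
        have hzL : z ∈ L := by
          rw [hL, mem_filter]
          exact ⟨mem_univ _, by linarith⟩
        have h4 : ∑ i ∈ L, M a c i < ∑ i ∈ L, S := sum_lt_sum_of_nonempty ⟨z, hzL⟩ fun i hi => by
          rw [hL, mem_filter] at hi
          exact hi.2
        rw [sum_const, nsmul_eq_mul] at h4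
        have h5 : L.card ≤ k - 1 := by
          have h6 : L ⊆ univ.erase i0 := by
            intro i hi
            rw [hL, mem_filter] at hi
            refine mem_erase.2 ⟨?_, mem_univ _⟩
            rintro rfl
            exact absurd hi.2 (not_lt.2 hi0)
          have h7 := card_le_card h6
          rwa [card_erase_of_mem (mem_univ _), card_univ, Fintype.card_fin] at h7
        have h8 : (L.card : ℝ) ≤ (k : ℝ) - 1 := by
          have : ((k - 1 : ℕ) : ℝ) = (k : ℝ) - 1 := by
            rw [Nat.cast_sub (by omega)]; simp
          rw [← this]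
          exact_mod_cast h5
        exact h4.trans_le (mul_le_mul_of_nonneg_right h8 hSpos)
      linarith
    · push Not at hheavy
      set I := ∑ u, ∑ v, a u v * (if c u = c v then (1 : ℝ) else 0) with hI
      have hsum : ∑ i, M a c i = 2 * D - I := by
        have e1 : ∑ i, M a c i = ∑ u, ∑ v, ∑ i, a u v * (if c u = i ∨ c v = i then (1 : ℝ) else 0) := by
          unfold M
          rw [sum_comm]
          refine sum_congr rfl fun u _ => ?_
          rw [sum_comm]
        rw [e1, hD, hI, mul_sum, ← sum_sub_distrib]
        refine sum_congr rfl fun u _ => ?_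
        rw [mul_sum, ← sum_sub_distrib]
        refine sum_congr rfl fun v _ => ?_
        rw [← mul_sum, card_pair]
        ring
      -- inner sums
      have hP : ∀ u, ∑ v, a u v * (if c u = c v ∧ c u ≠ z ∧ u ∉ B then (1 : ℝ) else 0) ≤
          ∑ v, a u v * (if c u ≠ z ∧ c v = z then (1 : ℝ) else 0) := by
        intro u
        by_cases hu : c u ≠ z ∧ u ∉ B
        · have h1 := hf1 u (hBn u hu.2) hu.1
          have e1 : ∑ v, a u v * (if c u = c v ∧ c u ≠ z ∧ u ∉ B then (1 : ℝ) else 0) =
              ∑ v, a u v - out a c (c u) u := by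
            unfold out
            rw [← sum_sub_distrib]
            refine sum_congr rfl fun v _ => ?_
            by_cases h : c v = c u
            · rw [if_pos ⟨h.symm, hu⟩, if_pos h]; ring
            · rw [if_neg (fun h' => h h'.1.symm), if_neg h]; ring
          have e2 : ∑ v, a u v * (if c u ≠ z ∧ c v = z then (1 : ℝ) else 0) =
              ∑ v, a u v - out a c z u := by
            unfold out
            rw [← sum_sub_distrib]
            refine sum_congr rfl fun v _ => ?_
            by_cases h : c v = z
            · rw [if_pos ⟨hu.1, h⟩, if_pos h]; ring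
            · rw [if_neg (fun h' => h h'.2), if_neg h]; ring
          rw [e1, e2]
          linarith
        · have e1 : ∑ v, a u v * (if c u = c v ∧ c u ≠ z ∧ u ∉ B then (1 : ℝ) else 0) = 0 := by
            refine sum_eq_zero fun v _ => ?_
            rw [if_neg (fun h' => hu h'.2), mul_zero]
          rw [e1]
          exact sum_nonneg fun v _ => mul_nonneg (ha0 _ _) (by split_ifs <;> norm_num)
      have hP' : ∑ u, ∑ v, a u v * (if c u = c v ∧ c v ≠ z ∧ v ∉ B then (1 : ℝ) else 0) ≤
          ∑ u, ∑ v, a u v * (if c v ≠ z ∧ c u = z then (1 : ℝ) else 0) := by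
        rw [sum_comm]
        rw [sum_comm (f := fun u v => a u v * (if c v ≠ z ∧ c u = z then (1 : ℝ) else 0))]
        refine sum_le_sum fun u _ => ?_
        refine le_trans (le_of_eq ?_) ((hP u).trans (le_of_eq ?_))
        · refine sum_congr rfl fun v _ => ?_
          rw [hs u v]
          congr 1
          exact if_congr ⟨fun h => ⟨h.1.symm, h.2⟩, fun h => ⟨h.1.symm, h.2⟩⟩ rfl rfl
        · refine sum_congr rfl fun v _ => ?_
          rw [hs u v]
      have hIle : I ≤ M a c z + (B.card : ℝ) ^ 2 := by
        have h1 : I ≤ ∑ u, ∑ v, (((if u ∈ B then (1 : ℝ) else 0) * (if v ∈ B then 1 else 0)) +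
            a u v * (if c u = z ∧ c v = z then 1 else 0) +
            a u v * (if c u = c v ∧ c u ≠ z ∧ u ∉ B then (1 : ℝ) else 0) +
            a u v * (if c u = c v ∧ c v ≠ z ∧ v ∉ B then (1 : ℝ) else 0)) := by
          refine sum_le_sum fun u _ => sum_le_sum fun v _ => ?_
          have q0 := ha0 u v
          have q1 := ha1 u v
          by_cases h : c u = c v
          · rw [if_pos h]
            by_cases hz1 : c u = z
            · have hz2 : c v = z := h ▸ hz1
              rw [if_pos (⟨hz1, hz2⟩ : c u = z ∧ c v = z)]
              have : 0 ≤ (if u ∈ B then (1 : ℝ) else 0) * (if v ∈ B then 1 else 0) := by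
                split_ifs <;> norm_num
              have r1 : 0 ≤ a u v * (if c u = c v ∧ c u ≠ z ∧ u ∉ B then (1 : ℝ) else 0) :=
                mul_nonneg q0 (by split_ifs <;> norm_num)
              have r2 : 0 ≤ a u v * (if c u = c v ∧ c v ≠ z ∧ v ∉ B then (1 : ℝ) else 0) :=
                mul_nonneg q0 (by split_ifs <;> norm_num)
              linarith
            · have hz2 : c v ≠ z := h ▸ hz1
              have r0 : 0 ≤ a u v * (if c u = z ∧ c v = z then (1 : ℝ) else 0) :=
                mul_nonneg q0 (by split_ifs <;> norm_num)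
              by_cases hu : u ∈ B
              · by_cases hv : v ∈ B
                · rw [if_pos hu, if_pos hv]
                  have r1 : 0 ≤ a u v * (if c u = c v ∧ c u ≠ z ∧ u ∉ B then (1 : ℝ) else 0) :=
                    mul_nonneg q0 (by split_ifs <;> norm_num)
                  have r2 : 0 ≤ a u v * (if c u = c v ∧ c v ≠ z ∧ v ∉ B then (1 : ℝ) else 0) :=
                    mul_nonneg q0 (by split_ifs <;> norm_num)
                  linarith
                · rw [if_pos (⟨h, hz2, hv⟩ : c u = c v ∧ c v ≠ z ∧ v ∉ B)]
                  have : 0 ≤ (if u ∈ B then (1 : ℝ) else 0) * (if v ∈ B then 1 else 0) := by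
                    split_ifs <;> norm_num
                  have r1 : 0 ≤ a u v * (if c u = c v ∧ c u ≠ z ∧ u ∉ B then (1 : ℝ) else 0) :=
                    mul_nonneg q0 (by split_ifs <;> norm_num)
                  linarith
              · rw [if_pos (⟨h, hz1, hu⟩ : c u = c v ∧ c u ≠ z ∧ u ∉ B)]
                have : 0 ≤ (if u ∈ B then (1 : ℝ) else 0) * (if v ∈ B then 1 else 0) := by
                  split_ifs <;> norm_num
                have r2 : 0 ≤ a u v * (if c u = c v ∧ c v ≠ z ∧ v ∉ B then (1 : ℝ) else 0) :=
                  mul_nonneg q0 (by split_ifs <;> norm_num)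
                linarith
          · rw [if_neg h, mul_zero]
            have : 0 ≤ (if u ∈ B then (1 : ℝ) else 0) * (if v ∈ B then 1 else 0) := by
              split_ifs <;> norm_num
            have r0 : 0 ≤ a u v * (if c u = z ∧ c v = z then (1 : ℝ) else 0) :=
              mul_nonneg q0 (by split_ifs <;> norm_num)
            have r1 : 0 ≤ a u v * (if c u = c v ∧ c u ≠ z ∧ u ∉ B then (1 : ℝ) else 0) :=
              mul_nonneg q0 (by split_ifs <;> norm_num)
            have r2 : 0 ≤ a u v * (if c u = c v ∧ c v ≠ z ∧ v ∉ B then (1 : ℝ) else 0) :=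
              mul_nonneg q0 (by split_ifs <;> norm_num)
            linarith
        simp only [sum_add_distrib] at h1
        rw [hBB] at h1
        have h2 := sum_le_sum fun (u : V) (_ : u ∈ univ) => hP u
        have h3 : M a c z = ∑ u, ∑ v, a u v * (if c u = z ∧ c v = z then (1 : ℝ) else 0) +
            ∑ u, ∑ v, a u v * (if c u ≠ z ∧ c v = z then (1 : ℝ) else 0) +
            ∑ u, ∑ v, a u v * (if c v ≠ z ∧ c u = z then (1 : ℝ) else 0) := by
          unfold M
          simp only [← sum_add_distrib]
          refine sum_congr rfl fun u _ => sum_congr rfl fun v _ => ?_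
          by_cases p1 : c u = z <;> by_cases p2 : c v = z <;> simp [p1, p2]
        linarith
      have hMs : ∑ i, M a c i ≤ 2 * T + ((k : ℝ) - 1) * S := by
        rw [← add_sum_erase univ _ (mem_univ z)]
        have h1 : ∑ i ∈ univ.erase z, M a c i ≤ ∑ i ∈ univ.erase z, S :=
          sum_le_sum fun i _ => (hheavy i).le
        rw [sum_const, card_erase_of_mem (mem_univ _), card_univ, Fintype.card_fin,
          nsmul_eq_mul] at h1
        have h2 : ((k - 1 : ℕ) : ℝ) = (k : ℝ) - 1 := by
          rw [Nat.cast_sub (by omega)]; simp
        rw [h2] at h1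
        linarith
      have hSS : 4 * T ≤ ((k : ℝ) - 1) * S := by
        have : 2 * S ≤ ((k : ℝ) - 1) * S := mul_le_mul_of_nonneg_right (by linarith) hSpos
        linarith
      have hBc : 0 ≤ (B.card : ℝ) ^ 2 := by positivity
      linarith
  -- few vertices of large degree
  have hcard : (B.card : ℝ) ≤ D / δ := by
    rw [le_div_iff₀ hδ]
    calc (B.card : ℝ) * δ = ∑ w ∈ B, δ := by rw [sum_const, nsmul_eq_mul]
      _ ≤ ∑ w ∈ B, ∑ v, a w v := sum_le_sum fun w hw => by
          rw [hB, mem_filter] at hw
          exact hw.2.le
      _ ≤ D := sum_le_sum_of_subset_of_nonneg (subset_univ _) fun w _ _ =>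
          sum_nonneg fun v _ => ha0 w v
  have h9 : (B.card : ℝ) ^ 2 ≤ (D / δ) ^ 2 := by
    have h10 : (0 : ℝ) ≤ B.card := Nat.cast_nonneg _
    exact pow_le_pow_left₀ h10 hcard 2
  linarith

end Pool.Agent.Y341.JP
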