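import Pool.Agent.Y341.JP.Core

/-!
# The bound for graphs
-/

set_option autoImplicit false

namespace Pool.Agent.Y341.JP

open Finset

variable {V : Type} [Fintype V] [DecidableEq V] {k : ℕ}

/-- the adjacency matrix -/
noncomputable def adj (G : SimpleGraph V) (u v : V) : ℝ := by
  classical
  exact if G.Adj u v then 1 else 0

theorem sum_adj (G : SimpleGraph V) : ∑ u, ∑ v, adj G u v = 2 * (G.edgeSet.ncard : ℝ) := by
  classical
  have h1 : ∀ u, ∑ v, adj G u v = (G.degree u : ℝ) := by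
    intro u
    unfold adj
    rw [Finset.sum_boole, ← SimpleGraph.card_neighborFinset_eq_degree,
      SimpleGraph.neighborFinset_eq_filter]
  have h2 := G.sum_degrees_eq_twice_card_edges
  have h3 : G.edgeSet.ncard = G.edgeFinset.card := by
    rw [Set.ncard_eq_toFinset_card']
    rfl
  simp only [h1]
  rw [h3, ← Nat.cast_sum, h2]
  push_cast
  ring

/-- the edges of `G` met by the class `i` -/
def touch (G : SimpleGraph V) (c : V → Fin k) (i : Fin k) : SimpleGraph V where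
  Adj u v := G.Adj u v ∧ (c u = i ∨ c v = i)
  symm := ⟨fun _ _ h => ⟨h.1.symm, h.2.symm⟩⟩
  loopless := ⟨fun _ h => h.1.ne rfl⟩

theorem touch_edgeSet (G : SimpleGraph V) (c : V → Fin k) (i : Fin k) :
    (touch G c i).edgeSet = {e ∈ G.edgeSet | ∃ v ∈ e, c v = i} := by
  ext e
  induction e using Sym2.ind with
  | _ x y =>
    simp only [SimpleGraph.mem_edgeSet, touch, Set.mem_ofPred_eq, Sym2.mem_iff]
    constructor
    · rintro ⟨h, h1 | h1⟩
      · exact ⟨h, x, Or.inl rfl, h1⟩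
      · exact ⟨h, y, Or.inr rfl, h1⟩
    · rintro ⟨h, w, rfl | rfl, h1⟩
      · exact ⟨h, Or.inl h1⟩
      · exact ⟨h, Or.inr h1⟩

theorem M_adj (G : SimpleGraph V) (c : V → Fin k) (i : Fin k) :
    M (adj G) c i = 2 * ({e ∈ G.edgeSet | ∃ v ∈ e, c v = i}.ncard : ℝ) := by
  classical
  rw [← touch_edgeSet, ← sum_adj]
  unfold M
  refine sum_congr rfl fun u _ => sum_congr rfl fun v _ => ?_
  unfold adj touch
  by_cases h1 : G.Adj u v <;> by_cases h2 : c u = i <;> by_cases h3 : c v = i <;>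
    simp [h1, h2, h3]

theorem graph_core (G : SimpleGraph V) (hk : 3 ≤ k) {T δ : ℝ} (hδ : 0 < δ)
    (hm : (2 * (G.edgeSet.ncard : ℝ) / δ) ^ 2 + ((k : ℝ) - 1) * (2 * T + 4 * δ) ≤
      2 * (G.edgeSet.ncard : ℝ)) :
    ∃ c : V → Fin k, ∀ i, T ≤ ({e ∈ G.edgeSet | ∃ v ∈ e, c v = i}.ncard : ℝ) := by
  classical
  rcases lt_or_ge T 0 with hT | hT
  · exact ⟨fun _ => ⟨0, by omega⟩, fun i => hT.le.trans (Nat.cast_nonneg _)⟩
  obtain ⟨c, hc⟩ := core (a := adj G) (k := k)
    (fun u v => by unfold adj; by_cases h : G.Adj u v <;> simp [h])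
    (fun u => by unfold adj; simp)
    (fun u v => by unfold adj; simp [G.adj_comm u v]) hk hT hδ (by rw [sum_adj]; exact hm)
  refine ⟨c, fun i => ?_⟩
  have h := hc i
  rw [M_adj] at h
  linarith

end Pool.Agent.Y341.JP
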