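import Pool.Agent.Y341.JP.Prob

/-!
# A colouring close to the expectation in every class
-/

set_option autoImplicit false

namespace Pool.Agent.Y341.JP

open Finset

variable {V : Type} [Fintype V] [DecidableEq V] {k : ℕ}

/-- indicator of the complement of `B` -/
noncomputable def tt (B : Finset V) (u : V) : ℝ := if u ∈ B then 0 else 1

/-- indicator of the vertices of `B` coloured `i` -/
noncomputable def bb (B : Finset V) (β : V → Fin k) (i : Fin k) (u : V) : ℝ :=
  if u ∈ B ∧ β u = i then 1 else 0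

/-- the mean of the indicator of the class `i` -/
noncomputable def mm (B : Finset V) (β : V → Fin k) (p : Fin k → ℝ) (i : Fin k) (u : V) : ℝ :=
  bb B β i u + tt B u * p i

/-- the mean of `M` -/
noncomputable def mu (a : V → V → ℝ) (B : Finset V) (β : V → Fin k) (p : Fin k → ℝ)
    (i : Fin k) : ℝ :=
  ∑ u, ∑ v, a u v * (mm B β p i u + mm B β p i v - mm B β p i u * mm B β p i v)

variable {a : V → V → ℝ} {p : Fin k → ℝ}

theorem mm_nonneg (hp : ∀ j, 0 ≤ p j) (B : Finset V) (β : V → Fin k) (i : Fin k) (u : V) :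
    0 ≤ mm B β p i u := by
  have := hp i
  unfold mm bb tt
  by_cases h : u ∈ B
  · by_cases h' : β u = i <;> simp [h, h']
  · simp [h, this]

theorem mm_le_one (hp : ∀ j, 0 ≤ p j) (h1 : ∑ j, p j = 1) (B : Finset V) (β : V → Fin k)
    (i : Fin k) (u : V) : mm B β p i u ≤ 1 := by
  have h2 := p_le_one hp h1 i
  unfold mm bb tt
  by_cases h : u ∈ B
  · by_cases h' : β u = i <;> simp [h, h']
  · simp [h, h2]

theorem indic (B : Finset V) (β c : V → Fin k) (i : Fin k) (u : V) :
    (if (if u ∈ B then β u else c u) = i then (1 : ℝ) else 0) =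
      mm B β p i u + tt B u * y p i (c u) := by
  unfold mm bb tt y
  by_cases h : u ∈ B
  · simp [h]
  · simp [h]

theorem or_indic (x z i : Fin k) : (if x = i ∨ z = i then (1 : ℝ) else 0) =
    (if x = i then 1 else 0) + (if z = i then 1 else 0) -
      (if x = i then 1 else 0) * (if z = i then 1 else 0) := by
  by_cases h1 : x = i <;> by_cases h2 : z = i <;> simp [h1, h2]

theorem M_split (hs : ∀ u v, a u v = a v u) (B : Finset V) (β c : V → Fin k) (i : Fin k) :
    M a (fun u => if u ∈ B then β u else c u) i = mu a B β p i +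
      ∑ u, (2 * (tt B u * ∑ v, a u v * (1 - mm B β p i v))) * y p i (c u) -
      ∑ u, ∑ v, (a u v * tt B u * tt B v) * (y p i (c u) * y p i (c v)) := by
  have e1 : ∑ u, (2 * (tt B u * ∑ v, a u v * (1 - mm B β p i v))) * y p i (c u) =
      ∑ u, ∑ v, a u v * (tt B u * y p i (c u) * (1 - mm B β p i v)) +
      ∑ u, ∑ v, a u v * (tt B v * y p i (c v) * (1 - mm B β p i u)) := by
    have e2 : ∑ u, ∑ v, a u v * (tt B v * y p i (c v) * (1 - mm B β p i u)) =
        ∑ u, ∑ v, a u v * (tt B u * y p i (c u) * (1 - mm B β p i v)) := by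
      rw [sum_comm]
      exact sum_congr rfl fun u _ => sum_congr rfl fun v _ => by rw [hs v u]
    rw [e2, ← sum_add_distrib]
    refine sum_congr rfl fun u _ => ?_
    rw [mul_sum, mul_sum, sum_mul, ← sum_add_distrib]
    exact sum_congr rfl fun v _ => by ring
  rw [e1]
  unfold M mu
  simp only [← sum_add_distrib, ← sum_sub_distrib]
  refine sum_congr rfl fun u _ => sum_congr rfl fun v _ => ?_
  rw [or_indic, indic (p := p), indic (p := p)]
  ring

theorem moment (h01 : ∀ u v, a u v = 0 ∨ a u v = 1) (h0 : ∀ u, a u u = 0)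
    (hs : ∀ u v, a u v = a v u) (hp : ∀ j, 0 ≤ p j) (h1 : ∑ j, p j = 1)
    (B : Finset V) (β : V → Fin k) {δ : ℝ} (hδ : 1 ≤ δ) (hB : ∀ u, u ∉ B → ∑ v, a u v ≤ δ) :
    ∃ c : V → Fin k, ∀ i, mu a B β p i ≤
      M a c i + Real.sqrt (12 * k * δ * ∑ u, ∑ v, a u v) := by
  have ha0 : ∀ u v, 0 ≤ a u v := fun u v => by rcases h01 u v with h | h <;> rw [h] <;> norm_num
  set D := ∑ u, ∑ v, a u v with hD
  have hD0 : 0 ≤ D := sum_nonneg fun u _ => sum_nonneg fun v _ => ha0 u v
  have ht0 : ∀ u, 0 ≤ tt B u := fun u => by unfold tt; split_ifs <;> norm_num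
  have ht1 : ∀ u, tt B u ≤ 1 := fun u => by unfold tt; split_ifs <;> norm_num
  set s : Fin k → V → ℝ := fun i u => 2 * (tt B u * ∑ v, a u v * (1 - mm B β p i v)) with hsd
  set b : V → V → ℝ := fun u v => a u v * tt B u * tt B v with hb
  have hs2 : ∀ i, ∑ u, s i u ^ 2 ≤ 4 * δ * D := by
    intro i
    rw [hD, mul_sum]
    refine sum_le_sum fun u _ => ?_
    have q1 : 0 ≤ ∑ v, a u v * (1 - mm B β p i v) := sum_nonneg fun v _ =>
      mul_nonneg (ha0 _ _) (by linarith [mm_le_one hp h1 B β i v])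
    have q2 : ∑ v, a u v * (1 - mm B β p i v) ≤ ∑ v, a u v := sum_le_sum fun v _ => by
      have := ha0 u v
      have := mm_nonneg hp B β i v
      nlinarith
    by_cases hu : u ∈ B
    · have : s i u = 0 := by rw [hsd]; simp [tt, hu]
      rw [this]
      have : 0 ≤ 4 * δ * ∑ v, a u v :=
        mul_nonneg (by linarith) (sum_nonneg fun v _ => ha0 u v)
      simpa using this
    · have : s i u = 2 * ∑ v, a u v * (1 - mm B β p i v) := by rw [hsd]; simp [tt, hu]
      rw [this]
      have q3 := hB u hu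
      nlinarith
  have hb01 : ∀ u v, b u v = 0 ∨ b u v = 1 := by
    intro u v
    rcases h01 u v with h | h
    · left; rw [hb]; simp [h]
    · rw [hb]
      simp only [h, tt]
      split_ifs <;> simp
  have hbs : ∑ u, ∑ v, b u v ≤ D := sum_le_sum fun u _ => sum_le_sum fun v _ => by
    have q1 := mul_le_mul_of_nonneg_left (ht1 u) (ha0 u v)
    have q2 := mul_le_mul_of_nonneg_left (ht1 v) (mul_nonneg (ha0 u v) (ht0 u))
    rw [hb]
    simp only
    linarith
  obtain ⟨c, hc⟩ := exists_le (V := V) hp h1 (x := 6 * k * δ * D)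
    (fun c => ∑ i, ((∑ u, s i u * y p i (c u)) ^ 2 +
      (∑ u, ∑ v, b u v * (y p i (c u) * y p i (c v))) ^ 2)) (by
    rw [E_sum]
    have q : ∀ i : Fin k, E p (fun c : V → Fin k => (∑ u, s i u * y p i (c u)) ^ 2 +
        (∑ u, ∑ v, b u v * (y p i (c u) * y p i (c v))) ^ 2) ≤ 6 * δ * D := by
      intro i
      rw [E_add]
      have q1 := (E_L hp h1 i (s i)).trans (hs2 i)
      have q2 := E_Q hp h1 i hb01 (fun u => by rw [hb]; simp [h0])
      have q3 : 2 * ∑ u, ∑ v, b u v ≤ 2 * δ * D := by nlinarith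
      linarith
    refine (sum_le_sum fun i _ => q i).trans (le_of_eq ?_)
    rw [sum_const, card_univ, Fintype.card_fin, nsmul_eq_mul]
    ring)
  refine ⟨fun u => if u ∈ B then β u else c u, fun i => ?_⟩
  rw [M_split (p := p) hs]
  have hi : (∑ u, s i u * y p i (c u)) ^ 2 +
      (∑ u, ∑ v, b u v * (y p i (c u) * y p i (c v))) ^ 2 ≤ 6 * k * δ * D := by
    refine le_trans ?_ hc
    exact single_le_sum (f := fun i => (∑ u, s i u * y p i (c u)) ^ 2 +
      (∑ u, ∑ v, b u v * (y p i (c u) * y p i (c v))) ^ 2)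
      (fun j _ => add_nonneg (sq_nonneg _) (sq_nonneg _)) (mem_univ i)
  set Lx := ∑ u, s i u * y p i (c u) with hL
  set Qx := ∑ u, ∑ v, b u v * (y p i (c u) * y p i (c v)) with hQ
  have hfin : Qx - Lx ≤ Real.sqrt (12 * k * δ * D) := by
    refine Real.le_sqrt_of_sq_le ?_
    nlinarith [sq_nonneg (Qx + Lx)]
  linarith

/-- the weight inside the complement of `B` -/
noncomputable def om (a : V → V → ℝ) (B : Finset V) : ℝ := ∑ u, ∑ v, a u v * (tt B u * tt B v)

/-- the weight between the class `i` of `B` and the complement -/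
noncomputable def gg (a : V → V → ℝ) (B : Finset V) (β : V → Fin k) (i : Fin k) : ℝ :=
  ∑ u, ∑ v, a u v * (bb B β i u * tt B v)

/-- the weight between `B` and the complement -/
noncomputable def gt (a : V → V → ℝ) (B : Finset V) : ℝ :=
  ∑ u, ∑ v, a u v * ((1 - tt B u) * tt B v)

theorem mu_ge (h01 : ∀ u v, a u v = 0 ∨ a u v = 1) (hs : ∀ u v, a u v = a v u)
    (hp : ∀ j, 0 ≤ p j) (h1 : ∑ j, p j = 1) (B : Finset V) (β : V → Fin k) (i : Fin k) :
    (2 * p i - p i ^ 2) * om a B + 2 * gg a B β i + 2 * (gt a B - gg a B β i) * p i ≤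
      mu a B β p i := by
  have ha0 : ∀ u v, 0 ≤ a u v := fun u v => by rcases h01 u v with h | h <;> rw [h] <;> norm_num
  have e1 : gg a B β i = ∑ u, ∑ v, a u v * (bb B β i v * tt B u) := by
    unfold gg
    rw [sum_comm]
    exact sum_congr rfl fun u _ => sum_congr rfl fun v _ => by rw [hs v u]
  have e2 : gt a B = ∑ u, ∑ v, a u v * ((1 - tt B v) * tt B u) := by
    unfold gt
    rw [sum_comm]
    exact sum_congr rfl fun u _ => sum_congr rfl fun v _ => by rw [hs v u]
  have e3 : (2 * p i - p i ^ 2) * om a B + 2 * gg a B β i + 2 * (gt a B - gg a B β i) * p i =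
      (2 * p i - p i ^ 2) * om a B + (1 - p i) * (gg a B β i + gg a B β i) +
        p i * (gt a B + gt a B) := by ring
  rw [e3]
  nth_rewrite 2 [e1]
  nth_rewrite 2 [e2]
  unfold om gg gt mu
  simp only [mul_sum, ← sum_add_distrib]
  refine sum_le_sum fun u _ => sum_le_sum fun v _ => ?_
  have q0 := ha0 u v
  have q1 := hp i
  have q2 := p_le_one hp h1 i
  unfold mm bb tt
  by_cases hu : u ∈ B <;> by_cases hv : v ∈ B <;> by_cases hbu : β u = i <;>
    by_cases hbv : β v = i <;> simp [hu, hv, hbu, hbv] <;> nlinarith [mul_nonneg q0 q1]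

theorem D_le (h01 : ∀ u v, a u v = 0 ∨ a u v = 1) (hs : ∀ u v, a u v = a v u) (B : Finset V) :
    ∑ u, ∑ v, a u v ≤ om a B + 2 * gt a B + (B.card : ℝ) ^ 2 := by
  have ha1 : ∀ u v, a u v ≤ 1 := fun u v => by rcases h01 u v with h | h <;> rw [h] <;> norm_num
  have e2 : gt a B = ∑ u, ∑ v, a u v * ((1 - tt B v) * tt B u) := by
    unfold gt
    rw [sum_comm]
    exact sum_congr rfl fun u _ => sum_congr rfl fun v _ => by rw [hs v u]
  have hBB : ∑ u : V, ∑ v : V, ((if u ∈ B then (1 : ℝ) else 0) * (if v ∈ B then 1 else 0)) =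
      (B.card : ℝ) ^ 2 := by
    rw [← sum_mul_sum]
    simp
    ring
  rw [two_mul]
  nth_rewrite 2 [e2]
  rw [← hBB]
  unfold om gt
  simp only [← sum_add_distrib]
  refine sum_le_sum fun u _ => sum_le_sum fun v _ => ?_
  have := ha1 u v
  unfold tt
  by_cases hu : u ∈ B <;> by_cases hv : v ∈ B <;> simp [hu, hv]
  exact this

end Pool.Agent.Y341.JP
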