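import Pool.Agent.Y341.JP.Core

/-!
# Second moments for random colourings
-/

set_option autoImplicit false

namespace Pool.Agent.Y341.JP

open Finset

variable {V : Type} [Fintype V] [DecidableEq V] {k : ℕ}

/-- the probability of a colouring -/
noncomputable def P (p : Fin k → ℝ) (c : V → Fin k) : ℝ := ∏ w, p (c w)

/-- the expectation -/
noncomputable def E (p : Fin k → ℝ) (F : (V → Fin k) → ℝ) : ℝ := ∑ c, P p c * F c

variable {p : Fin k → ℝ}

omit [DecidableEq V] in
theorem P_nonneg (hp : ∀ j, 0 ≤ p j) (c : V → Fin k) : 0 ≤ P p c := prod_nonneg fun _ _ => hp _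

theorem E_one (h1 : ∑ j, p j = 1) : E p (fun _ : V → Fin k => 1) = 1 := by
  unfold E P
  simp only [mul_one]
  have h := Finset.prod_univ_sum (fun _ : V => (univ : Finset (Fin k))) (fun _ j => p j)
  rw [Fintype.piFinset_univ] at h
  rw [← h, h1, prod_const_one]

theorem P_update (c : V → Fin k) (w : V) (j : Fin k) :
    P p (Function.update c w j) * p (c w) = P p c * p j := by
  unfold P
  rw [← mul_prod_erase univ _ (mem_univ w), ← mul_prod_erase univ (fun v => p (c v)) (mem_univ w),
    Function.update_self]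
  have h : ∏ x ∈ univ.erase w, p (Function.update c w j x) = ∏ x ∈ univ.erase w, p (c x) := by
    refine prod_congr rfl fun x hx => ?_
    rw [Function.update_of_ne (mem_erase.1 hx).1]
  rw [h]
  ring

theorem E_resample (h1 : ∑ j, p j = 1) (w : V) (F : (V → Fin k) → ℝ) :
    E p F = E p (fun c => ∑ j, p j * F (Function.update c w j)) := by
  have e1 : E p F = ∑ x : (V → Fin k) × Fin k, P p x.1 * p x.2 * F x.1 := by
    rw [Fintype.sum_prod_type]
    unfold E
    refine sum_congr rfl fun c _ => ?_
    simp only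
    rw [← sum_mul, ← mul_sum, h1, mul_one]
  have e2 : E p (fun c => ∑ j, p j * F (Function.update c w j)) =
      ∑ x : (V → Fin k) × Fin k, P p x.1 * p x.2 * F (Function.update x.1 w x.2) := by
    rw [Fintype.sum_prod_type]
    unfold E
    refine sum_congr rfl fun c _ => ?_
    simp only
    rw [mul_sum]
    refine sum_congr rfl fun j _ => ?_
    ring
  rw [e1, e2]
  let σ : ((V → Fin k) × Fin k) ≃ ((V → Fin k) × Fin k) :=
    { toFun := fun x => (Function.update x.1 w x.2, x.1 w)
      invFun := fun x => (Function.update x.1 w x.2, x.1 w)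
      left_inv := fun x => by simp
      right_inv := fun x => by simp }
  rw [← Equiv.sum_comp σ]
  refine sum_congr rfl fun x _ => ?_
  change P p (Function.update x.1 w x.2) * p (x.1 w) * F (Function.update x.1 w x.2) = _
  rw [P_update]

theorem E_zero (h1 : ∑ j, p j = 1) (w : V) (h : Fin k → ℝ) (hh : ∑ j, p j * h j = 0)
    (G : (V → Fin k) → ℝ) (hG : ∀ c j, G (Function.update c w j) = G c) :
    E p (fun c => h (c w) * G c) = 0 := by
  rw [E_resample h1 w]
  unfold E
  refine sum_eq_zero fun c _ => ?_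
  beta_reduce
  have : ∑ j, p j * (h (Function.update c w j w) * G (Function.update c w j)) =
      (∑ j, p j * h j) * G c := by
    rw [sum_mul]
    refine sum_congr rfl fun j _ => ?_
    rw [hG, Function.update_self]
    ring
  rw [this, hh, zero_mul, mul_zero]

theorem E_sum {ι : Type} (s : Finset ι) (F : ι → (V → Fin k) → ℝ) :
    E p (fun c => ∑ i ∈ s, F i c) = ∑ i ∈ s, E p (F i) := by
  unfold E
  simp only [mul_sum]
  rw [sum_comm]

theorem E_mul (x : ℝ) (F : (V → Fin k) → ℝ) : E p (fun c => x * F c) = x * E p F := by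
  unfold E
  rw [mul_sum]
  exact sum_congr rfl fun c _ => by ring

theorem E_add (F G : (V → Fin k) → ℝ) : E p (fun c => F c + G c) = E p F + E p G := by
  unfold E
  rw [← sum_add_distrib]
  exact sum_congr rfl fun c _ => by ring

theorem E_le (hp : ∀ j, 0 ≤ p j) (h1 : ∑ j, p j = 1) (F : (V → Fin k) → ℝ) {x : ℝ}
    (h : ∀ c, F c ≤ x) : E p F ≤ x := by
  have h2 : E p F ≤ E p (fun _ : V → Fin k => x * 1) := by
    unfold E
    exact sum_le_sum fun c _ => mul_le_mul_of_nonneg_left (by rw [mul_one]; exact h c)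
      (P_nonneg hp c)
  rw [E_mul, E_one h1, mul_one] at h2
  exact h2

theorem exists_le (hp : ∀ j, 0 ≤ p j) (h1 : ∑ j, p j = 1) (F : (V → Fin k) → ℝ) {x : ℝ}
    (h : E p F ≤ x) : ∃ c, F c ≤ x := by
  by_contra hcon
  push Not at hcon
  have h2 : E p (fun _ : V → Fin k => x * 1) < E p F := by
    unfold E
    have h3 : ∃ c : V → Fin k, 0 < P p c := by
      by_contra h4
      push Not at h4
      have h5 : E p (fun _ : V → Fin k => 1) ≤ 0 := by
        unfold E
        exact sum_nonpos fun c _ => by rw [mul_one]; exact h4 c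
      rw [E_one h1] at h5
      linarith
    obtain ⟨c0, hc0⟩ := h3
    refine sum_lt_sum (fun c _ => mul_le_mul_of_nonneg_left (by rw [mul_one]; exact (hcon c).le)
      (P_nonneg hp c)) ⟨c0, mem_univ _, ?_⟩
    rw [mul_one]
    exact mul_lt_mul_of_pos_left (hcon c0) hc0
  rw [E_mul, E_one h1, mul_one] at h2
  linarith

/-- centred indicator -/
noncomputable def y (p : Fin k → ℝ) (i j : Fin k) : ℝ := (if j = i then 1 else 0) - p i

theorem y_mean (h1 : ∑ j, p j = 1) (i : Fin k) : ∑ j, p j * y p i j = 0 := by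
  unfold y
  simp only [mul_sub, sum_sub_distrib, mul_ite, mul_one, mul_zero]
  rw [sum_ite_eq' univ i, if_pos (mem_univ _), ← sum_mul, h1]
  ring

theorem p_le_one (hp : ∀ j, 0 ≤ p j) (h1 : ∑ j, p j = 1) (i : Fin k) : p i ≤ 1 := by
  rw [← h1]
  exact single_le_sum (fun j _ => hp j) (mem_univ i)

theorem y_abs (hp : ∀ j, 0 ≤ p j) (h1 : ∑ j, p j = 1) (i j : Fin k) : |y p i j| ≤ 1 := by
  have h2 := hp i
  have h3 := p_le_one hp h1 i
  unfold y
  rw [abs_le]
  split_ifs <;> constructor <;> linarith

theorem E_L (hp : ∀ j, 0 ≤ p j) (h1 : ∑ j, p j = 1) (i : Fin k) (s : V → ℝ) :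
    E p (fun c => (∑ u, s u * y p i (c u)) ^ 2) ≤ ∑ u, s u ^ 2 := by
  have e1 : E p (fun c => (∑ u, s u * y p i (c u)) ^ 2) =
      ∑ u, ∑ v, s u * s v * E p (fun c => y p i (c u) * y p i (c v)) := by
    have : (fun c : V → Fin k => (∑ u, s u * y p i (c u)) ^ 2) =
        fun c => ∑ u, ∑ v, s u * s v * (y p i (c u) * y p i (c v)) := by
      funext c
      rw [sq, sum_mul_sum]
      exact sum_congr rfl fun u _ => sum_congr rfl fun v _ => by ring
    rw [this, E_sum]
    refine sum_congr rfl fun u _ => ?_
    rw [E_sum]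
    refine sum_congr rfl fun v _ => ?_
    rw [E_mul]
  rw [e1]
  refine sum_le_sum fun u _ => ?_
  rw [sum_eq_single u]
  · have h2 : E p (fun c : V → Fin k => y p i (c u) * y p i (c u)) ≤ 1 := by
      refine E_le hp h1 _ fun c => ?_
      have := y_abs hp h1 i (c u)
      rw [← abs_mul_abs_self]
      nlinarith [abs_nonneg (y p i (c u))]
    nlinarith [sq_nonneg (s u)]
  · intro v _ hv
    rw [E_zero h1 u (y p i) (y_mean h1 i) (fun c => y p i (c v)) (fun c j => by
      rw [Function.update_of_ne hv]), mul_zero]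
  · simp

theorem E_four (hp : ∀ j, 0 ≤ p j) (h1 : ∑ j, p j = 1) (i : Fin k) {u v u' v' : V}
    (h : u ≠ v) (h' : u' ≠ v') :
    E p (fun c => y p i (c u) * y p i (c v) * (y p i (c u') * y p i (c v'))) ≤
      (if u = u' ∧ v = v' then 1 else 0) + (if u = v' ∧ v = u' then 1 else 0) := by
  have hb : E p (fun c : V → Fin k => y p i (c u) * y p i (c v) * (y p i (c u') * y p i (c v')))
      ≤ 1 := by
    refine E_le hp h1 _ fun c => ?_
    refine (le_abs_self _).trans ?_
    rw [abs_mul, abs_mul, abs_mul]
    have q1 := y_abs hp h1 i (c u)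
    have q2 := y_abs hp h1 i (c v)
    have q3 := y_abs hp h1 i (c u')
    have q4 := y_abs hp h1 i (c v')
    exact mul_le_one₀ (mul_le_one₀ q1 (abs_nonneg _) q2)
      (mul_nonneg (abs_nonneg _) (abs_nonneg _)) (mul_le_one₀ q3 (abs_nonneg _) q4)
  have hnn : (0 : ℝ) ≤ (if u = u' ∧ v = v' then 1 else 0) + (if u = v' ∧ v = u' then 1 else 0) := by
    split_ifs <;> norm_num
  by_cases a1 : u = u'
  · by_cases a2 : v = v'
    · rw [if_pos ⟨a1, a2⟩]
      refine hb.trans ?_
      split_ifs <;> norm_num
    · -- v is different from u' and v'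
      have b1 : u' ≠ v := a1 ▸ h
      have b2 : v' ≠ v := fun h => a2 h.symm
      have : (fun c : V → Fin k => y p i (c u) * y p i (c v) * (y p i (c u') * y p i (c v'))) =
          fun c => y p i (c v) * (y p i (c u) * (y p i (c u') * y p i (c v'))) := by
        funext c; ring
      rw [this, E_zero h1 v (y p i) (y_mean h1 i)
        (fun c => y p i (c u) * (y p i (c u') * y p i (c v'))) (fun c j => by
          rw [Function.update_of_ne h, Function.update_of_ne b1, Function.update_of_ne b2])]
      exact hnn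
  · by_cases a3 : u = v'
    · by_cases a4 : v = u'
      · rw [if_pos (⟨a3, a4⟩ : u = v' ∧ v = u')]
        refine hb.trans ?_
        split_ifs <;> norm_num
      · have b1 : u' ≠ v := fun h => a4 h.symm
        have b2 : v' ≠ v := a3 ▸ h
        have : (fun c : V → Fin k => y p i (c u) * y p i (c v) * (y p i (c u') * y p i (c v'))) =
            fun c => y p i (c v) * (y p i (c u) * (y p i (c u') * y p i (c v'))) := by
          funext c; ring
        rw [this, E_zero h1 v (y p i) (y_mean h1 i)
          (fun c => y p i (c u) * (y p i (c u') * y p i (c v'))) (fun c j => by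
            rw [Function.update_of_ne h, Function.update_of_ne b1, Function.update_of_ne b2])]
        exact hnn
    · have b1 : u' ≠ u := fun h => a1 h.symm
      have b2 : v' ≠ u := fun h => a3 h.symm
      have : (fun c : V → Fin k => y p i (c u) * y p i (c v) * (y p i (c u') * y p i (c v'))) =
          fun c => y p i (c u) * (y p i (c v) * (y p i (c u') * y p i (c v'))) := by
        funext c; ring
      rw [this, E_zero h1 u (y p i) (y_mean h1 i)
        (fun c => y p i (c v) * (y p i (c u') * y p i (c v'))) (fun c j => by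
          rw [Function.update_of_ne h.symm, Function.update_of_ne b1, Function.update_of_ne b2])]
      exact hnn

theorem E_Q (hp : ∀ j, 0 ≤ p j) (h1 : ∑ j, p j = 1) (i : Fin k) {b : V → V → ℝ}
    (h01 : ∀ u v, b u v = 0 ∨ b u v = 1) (h0 : ∀ u, b u u = 0) :
    E p (fun c => (∑ u, ∑ v, b u v * (y p i (c u) * y p i (c v))) ^ 2) ≤
      2 * ∑ u, ∑ v, b u v := by
  have hb0 : ∀ u v, 0 ≤ b u v := fun u v => by rcases h01 u v with h | h <;> rw [h] <;> norm_num
  have hb1 : ∀ u v, b u v ≤ 1 := fun u v => by rcases h01 u v with h | h <;> rw [h] <;> norm_num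
  have e1 : E p (fun c => (∑ u, ∑ v, b u v * (y p i (c u) * y p i (c v))) ^ 2) =
      ∑ u, ∑ v, ∑ u', ∑ v', b u v * b u' v' *
        E p (fun c => y p i (c u) * y p i (c v) * (y p i (c u') * y p i (c v'))) := by
    have : (fun c : V → Fin k => (∑ u, ∑ v, b u v * (y p i (c u) * y p i (c v))) ^ 2) =
        fun c => ∑ u, ∑ v, ∑ u', ∑ v', b u v * b u' v' *
          (y p i (c u) * y p i (c v) * (y p i (c u') * y p i (c v'))) := by
      funext c
      rw [sq, sum_mul]
      refine sum_congr rfl fun u _ => ?_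
      rw [sum_mul]
      refine sum_congr rfl fun v _ => ?_
      rw [mul_sum]
      refine sum_congr rfl fun u' _ => ?_
      rw [mul_sum]
      exact sum_congr rfl fun v' _ => by ring
    rw [this, E_sum]
    refine sum_congr rfl fun u _ => ?_
    rw [E_sum]
    refine sum_congr rfl fun v _ => ?_
    rw [E_sum]
    refine sum_congr rfl fun u' _ => ?_
    rw [E_sum]
    refine sum_congr rfl fun v' _ => ?_
    rw [E_mul]
  rw [e1, mul_sum]
  refine sum_le_sum fun u _ => ?_
  rw [mul_sum]
  refine sum_le_sum fun v _ => ?_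
  have h2 : ∀ u' v', b u v * b u' v' *
        E p (fun c : V → Fin k => y p i (c u) * y p i (c v) * (y p i (c u') * y p i (c v'))) ≤
      b u v * ((if u = u' ∧ v = v' then 1 else 0) + (if u = v' ∧ v = u' then 1 else 0)) := by
    intro u' v'
    rcases h01 u v with h | h
    · rw [h]; simp
    · rcases h01 u' v' with h' | h'
      · rw [h, h', mul_zero, zero_mul, one_mul]
        split_ifs <;> norm_num
      · rw [h, h', one_mul, one_mul, one_mul]
        refine E_four hp h1 i ?_ ?_
        · rintro rfl; rw [h0] at h; norm_num at h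
        · rintro rfl; rw [h0] at h'; norm_num at h'
  refine (sum_le_sum fun u' _ => sum_le_sum fun v' _ => h2 u' v').trans (le_of_eq ?_)
  simp only [← mul_sum, sum_add_distrib]
  have e2 : ∑ u', ∑ v', (if u = u' ∧ v = v' then (1 : ℝ) else 0) = 1 := by
    rw [sum_eq_single u, sum_eq_single v]
    · simp
    · intro w _ hw; rw [if_neg (fun h => hw h.2.symm)]
    · simp
    · intro w _ hw
      exact sum_eq_zero fun v' _ => by rw [if_neg (fun h => hw h.1.symm)]
    · simp
  have e3 : ∑ u', ∑ v', (if u = v' ∧ v = u' then (1 : ℝ) else 0) = 1 := by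
    rw [sum_eq_single v, sum_eq_single u]
    · simp
    · intro w _ hw; rw [if_neg (fun h => hw h.1.symm)]
    · simp
    · intro w _ hw
      exact sum_eq_zero fun v' _ => by rw [if_neg (fun h => hw h.2.symm)]
    · simp
  rw [e2, e3]
  ring

end Pool.Agent.Y341.JP
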