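import Mathlib

/-!
# Real inequalities and the choice of a balanced subset
-/

set_option autoImplicit false

namespace Pool.Agent.Y341.JP

open Finset

theorem ineq_b {k w : ℝ} (hk : 3 ≤ k) (h0 : 0 ≤ w) (h1 : w ≤ 1) :
    1 + w / 9 ≤ (1 - w / k) * (1 + w) - w * (1 - w / k) ^ 2 / (k - 1) := by
  set q := 1 - w / k with hq
  have hq1 : q ≤ 1 := by
    have : 0 ≤ w / k := by positivity
    linarith
  have hq2 : 1 - w / 3 ≤ q := by
    have : w / k ≤ w / 3 := div_le_div_of_nonneg_left h0 (by norm_num) hk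
    linarith
  have hq0 : 0 ≤ q := by linarith
  have e1 : w * q ^ 2 / (k - 1) ≤ w * q ^ 2 / 2 :=
    div_le_div_of_nonneg_left (by positivity) (by norm_num) (by linarith)
  have e2 : (1 - w / 3) * (1 + w) - w * (1 - w / 3) ^ 2 / 2 ≤ q * (1 + w) - w * q ^ 2 / 2 := by
    have : 0 ≤ (q - (1 - w / 3)) * ((1 + w) - w * (q + (1 - w / 3)) / 2) := by
      refine mul_nonneg (by linarith) ?_
      nlinarith
    nlinarith
  have e3 : 1 + w / 9 ≤ (1 - w / 3) * (1 + w) - w * (1 - w / 3) ^ 2 / 2 := by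
    nlinarith [mul_nonneg h0 (mul_nonneg (sub_nonneg.2 h1) (by linarith : 0 ≤ 1 + w))]
  linarith

theorem ineq_a {k w : ℝ} (hk : 3 ≤ k) (h0 : 0 ≤ w) (h1 : w ≤ 1) :
    1 + w / 9 ≤ (k - 1) * (1 - w * (1 - w / k) ^ 2) := by
  have hkpos : 0 < k := by linarith
  obtain ⟨t, rfl⟩ : ∃ t, k = 3 + t := ⟨k - 3, by ring⟩
  have ht : 0 ≤ t := by linarith
  have c0 : 0 ≤ 9 - w - 2 * w * (3 - w) ^ 2 := by
    have : 0 ≤ (1 - w) * (9 - 10 * w + 2 * w ^ 2) := mul_nonneg (by linarith) (by nlinarith)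
    nlinarith
  have c1 : 0 ≤ 15 - w * (3 - w) ^ 2 - 4 * w * (3 - w) - 2 * w / 3 := by
    nlinarith [mul_nonneg h0 (sub_nonneg.2 h1), mul_nonneg (mul_nonneg h0 h0) (sub_nonneg.2 h1)]
  have c2 : 0 ≤ 7 - 8 * w - w / 9 + 2 * w ^ 2 := by nlinarith
  have c3 : 0 ≤ 1 - w := by linarith
  have key : 0 ≤ (3 + t - 1) * ((3 + t) ^ 2 - w * (3 + t - w) ^ 2) -
      (3 + t) ^ 2 * (1 + w / 9) := by
    have e : (3 + t - 1) * ((3 + t) ^ 2 - w * (3 + t - w) ^ 2) - (3 + t) ^ 2 * (1 + w / 9) =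
        (9 - w - 2 * w * (3 - w) ^ 2) + t * (15 - w * (3 - w) ^ 2 - 4 * w * (3 - w) - 2 * w / 3) +
        t ^ 2 * (7 - 8 * w - w / 9 + 2 * w ^ 2) + t ^ 3 * (1 - w) := by ring
    rw [e]
    positivity
  have e2 : (3 + t - 1) * (1 - w * (1 - w / (3 + t)) ^ 2) - (1 + w / 9) =
      ((3 + t - 1) * ((3 + t) ^ 2 - w * (3 + t - w) ^ 2) - (3 + t) ^ 2 * (1 + w / 9)) /
        (3 + t) ^ 2 := by
    field_simp
  have e3 : 0 ≤ (3 + t - 1) * (1 - w * (1 - w / (3 + t)) ^ 2) - (1 + w / 9) := by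
    rw [e2]; positivity
  linarith

theorem ineq_z2 {k θ g x : ℝ} (hk : 3 ≤ k) (hθ0 : 0 ≤ θ) (hθ1 : θ ≤ 1) (hg : 0 ≤ g)
    (h1 : θ * g ≤ x) (h2 : 2 * x ≤ g) :
    (1 + θ ^ 2 / 4) * (2 * g) ≤
      2 * x * (k - 1) + 2 * (g - x) * (1 + θ / 8 - 2 * (θ / 8) * (k - 1)) := by
  have q0 : θ ^ 2 ≤ θ := by nlinarith
  have hx0 : 0 ≤ x := le_trans (by positivity) h1
  have A1 : 0 ≤ (g - x) * θ / 4 := by
    have : 0 ≤ g - x := by linarith
    positivity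
  have A2 : 0 ≤ x * θ * (k - 1) / 2 := by
    have : 0 ≤ k - 1 := by linarith
    positivity
  have A3 : 0 ≤ (x - θ * g) * (k - 2) * 2 := by
    have h1 : 0 ≤ x - θ * g := by linarith
    have h2 : 0 ≤ k - 2 := by linarith
    positivity
  have A4 : 0 ≤ θ * g * (k - 3) * (3 / 2) := by
    have h2 : 0 ≤ k - 3 := by linarith
    positivity
  have A5 : θ ^ 2 * g ≤ θ * g := mul_le_mul_of_nonneg_right q0 hg
  have A6 : 0 ≤ θ * g := by positivity
  have e : 2 * x * (k - 1) + 2 * (g - x) * (1 + θ / 8 - 2 * (θ / 8) * (k - 1)) -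
      (1 + θ ^ 2 / 4) * (2 * g) = (x - θ * g) * (k - 2) * 2 + θ * g * (k - 3) * (3 / 2) +
      (g - x) * θ / 4 + x * θ * (k - 1) / 2 + (θ * g - θ ^ 2 * g / 2) := by ring
  have h3 : 0 ≤ θ * g - θ ^ 2 * g / 2 := by linarith
  linarith

theorem exists_subset {V : Type} [DecidableEq V] (B : Finset V) (G : V → ℝ)
    (hG : ∀ x, 0 ≤ G x) {θ : ℝ} (hθ : θ ≤ 1 / 4) (hpos : 0 < ∑ x ∈ B, G x)
    (hmax : ∀ x ∈ B, G x ≤ (1 - θ) * ∑ x ∈ B, G x) :
    ∃ S ⊆ B, θ * ∑ x ∈ B, G x ≤ ∑ x ∈ S, G x ∧ 2 * ∑ x ∈ S, G x ≤ ∑ x ∈ B, G x := by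
  classical
  set g := ∑ x ∈ B, G x with hg
  have hne : (B.powerset.filter (fun S => 2 * ∑ x ∈ S, G x ≤ g)).Nonempty :=
    ⟨∅, by rw [mem_filter, mem_powerset]; exact ⟨empty_subset _, by simpa using hpos.le⟩⟩
  obtain ⟨S, hS, hSmax⟩ := exists_max_image _ (fun S => ∑ x ∈ S, G x) hne
  rw [mem_filter, mem_powerset] at hS
  refine ⟨S, hS.1, ?_, hS.2⟩
  by_contra hlt
  push Not at hlt
  by_cases hx : ∃ x ∈ B, g < 2 * G x
  · obtain ⟨x, hxB, hx⟩ := hx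
    have h1 : G x + ∑ y ∈ B.erase x, G y = g := add_sum_erase _ _ hxB
    have h2 := hSmax (B.erase x) (by
      rw [mem_filter, mem_powerset]
      exact ⟨erase_subset _ _, by linarith⟩)
    have h3 := hmax x hxB
    linarith
  · push Not at hx
    have h4 : ∀ x ∈ B \ S, G x ≤ 0 := by
      intro x hxm
      rw [mem_sdiff] at hxm
      have h5 := hSmax {x} (by
        rw [mem_filter, mem_powerset, sum_singleton]
        exact ⟨singleton_subset_iff.2 hxm.1, hx x hxm.1⟩)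
      rw [sum_singleton] at h5
      have h6 := hSmax (insert x S) (by
        rw [mem_filter, mem_powerset, sum_insert hxm.2]
        refine ⟨insert_subset hxm.1 hS.1, ?_⟩
        nlinarith)
      rw [sum_insert hxm.2] at h6
      linarith
    have h7 : ∑ x ∈ B \ S, G x ≤ 0 := sum_nonpos h4
    have h8 : ∑ x ∈ B \ S, G x + ∑ x ∈ S, G x = g := sum_sdiff hS.1
    nlinarith

end Pool.Agent.Y341.JP
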