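import Pool.Agent.Y341.JP.Moment
import Pool.Agent.Y341.JP.Real

/-!
# The two choices of probabilities
-/

set_option autoImplicit false

namespace Pool.Agent.Y341.JP

open Finset

variable {V : Type} [Fintype V] [DecidableEq V] {k : ℕ}

variable {a : V → V → ℝ}

theorem tt_nonneg (B : Finset V) (u : V) : 0 ≤ tt B u := by
  unfold tt; split_ifs <;> norm_num

theorem tt_le_one (B : Finset V) (u : V) : tt B u ≤ 1 := by
  unfold tt; split_ifs <;> norm_num

theorem om_nonneg (h01 : ∀ u v, a u v = 0 ∨ a u v = 1) (B : Finset V) : 0 ≤ om a B := by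
  have ha0 : ∀ u v, 0 ≤ a u v := fun u v => by rcases h01 u v with h | h <;> rw [h] <;> norm_num
  exact sum_nonneg fun u _ => sum_nonneg fun v _ => mul_nonneg (ha0 u v)
    (mul_nonneg (tt_nonneg B u) (tt_nonneg B v))

theorem gt_nonneg (h01 : ∀ u v, a u v = 0 ∨ a u v = 1) (B : Finset V) : 0 ≤ gt a B := by
  have ha0 : ∀ u v, 0 ≤ a u v := fun u v => by rcases h01 u v with h | h <;> rw [h] <;> norm_num
  exact sum_nonneg fun u _ => sum_nonneg fun v _ => mul_nonneg (ha0 u v)
    (mul_nonneg (by linarith [tt_le_one B u]) (tt_nonneg B v))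

theorem M_nonneg (h01 : ∀ u v, a u v = 0 ∨ a u v = 1) (c : V → Fin k) (i : Fin k) :
    0 ≤ M a c i := by
  have ha0 : ∀ u v, 0 ≤ a u v := fun u v => by rcases h01 u v with h | h <;> rw [h] <;> norm_num
  exact sum_nonneg fun u _ => sum_nonneg fun v _ => mul_nonneg (ha0 u v)
    (by split_ifs <;> norm_num)

theorem scheme_one (h01 : ∀ u v, a u v = 0 ∨ a u v = 1) (h0 : ∀ u, a u u = 0)
    (hs : ∀ u v, a u v = a v u) (hk : 3 ≤ k) (B : Finset V) {δ : ℝ} (hδ : 1 ≤ δ)
    (hB : ∀ u, u ∉ B → ∑ v, a u v ≤ δ) {w0 : ℝ} (hw0 : 0 ≤ w0)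
    (hω : w0 * (om a B + 2 * gt a B) ≤ om a B) :
    ∃ c : V → Fin k, ∀ i, (1 + w0 / 9) * (om a B + 2 * gt a B) ≤
      ((k : ℝ) - 1) * (M a c i + Real.sqrt (12 * k * δ * ∑ u, ∑ v, a u v)) := by
  have hk' : (3 : ℝ) ≤ k := by exact_mod_cast hk
  have hom := om_nonneg h01 B
  have hgt := gt_nonneg h01 B
  set N := om a B + 2 * gt a B with hN
  have hN0 : 0 ≤ N := by linarith
  rcases hN0.eq_or_lt with hNz | hNpos
  · refine ⟨fun _ => ⟨0, by omega⟩, fun i => ?_⟩
    rw [← hNz, mul_zero]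
    exact mul_nonneg (by linarith) (add_nonneg (M_nonneg h01 _ _) (Real.sqrt_nonneg _))
  set w := om a B / N with hw
  have hwN : om a B = w * N := by rw [hw]; field_simp
  have hw_0 : 0 ≤ w := by positivity
  have hw_1 : w ≤ 1 := by rw [hw, div_le_one hNpos]; linarith
  have hw_w0 : w0 ≤ w := by rw [hw, le_div_iff₀ hNpos]; exact hω
  have hg : 2 * gt a B = (1 - w) * N := by
    have : 2 * gt a B = N - om a B := by rw [hN]; ring
    rw [this, hwN]; ring
  set z : Fin k := ⟨0, by omega⟩ with hz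
  set q := 1 - w / k with hq
  have hwk : w / k ≤ 1 := by
    rw [div_le_one (by linarith)]; linarith
  have hwk0 : 0 ≤ w / k := by positivity
  have hk1 : (0 : ℝ) < k - 1 := by linarith
  set p : Fin k → ℝ := fun j => q / (k - 1) + (if j = z then w / k - q / (k - 1) else 0) with hp
  have hpz : p z = w / k := by rw [hp]; simp
  have hpj : ∀ j, j ≠ z → p j = q / (k - 1) := fun j hj => by rw [hp]; simp [hj]
  have hp0 : ∀ j, 0 ≤ p j := by
    intro j
    by_cases hj : j = z
    · rw [hj, hpz]; exact hwk0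
    · rw [hpj j hj]; exact div_nonneg (by linarith) hk1.le
  have hp1 : ∑ j, p j = 1 := by
    rw [hp]
    simp only [sum_add_distrib, sum_const, card_univ, Fintype.card_fin, nsmul_eq_mul,
      sum_ite_eq', mem_univ, if_true]
    rw [hq]
    field_simp
    ring
  obtain ⟨c, hc⟩ := moment h01 h0 hs hp0 hp1 B (fun _ => z) hδ hB
  refine ⟨c, fun i => ?_⟩
  have h1 := hc i
  have h2 := mu_ge h01 hs hp0 hp1 B (fun _ => z) i
  refine le_trans ?_ (mul_le_mul_of_nonneg_left (h2.trans h1) hk1.le)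
  by_cases hi : i = z
  · have hgg : gg a B (fun _ => z) i = gt a B := by
      unfold gg gt
      refine sum_congr rfl fun u _ => sum_congr rfl fun v _ => ?_
      unfold bb tt
      by_cases hu : u ∈ B <;> simp [hu, hi]
    rw [hgg, hi, hpz, hg, hwN]
    have h3 := ineq_a hk' hw_0 hw_1
    have h4 : (1 + w0 / 9) * N ≤ (1 + w / 9) * N :=
      mul_le_mul_of_nonneg_right (by linarith) hN0
    have h5 := mul_le_mul_of_nonneg_right h3 hN0
    refine h4.trans (h5.trans (le_of_eq ?_))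
    ring
  · have hgg : gg a B (fun _ => z) i = 0 := by
      unfold gg
      refine sum_eq_zero fun u _ => sum_eq_zero fun v _ => ?_
      unfold bb
      rw [if_neg (fun h => hi h.2.symm)]
      ring
    rw [hgg, hpj i hi, hwN]
    have h3 := ineq_b hk' hw_0 hw_1
    have h4 : (1 + w0 / 9) * N ≤ (1 + w / 9) * N :=
      mul_le_mul_of_nonneg_right (by linarith) hN0
    have h5 := mul_le_mul_of_nonneg_right h3 hN0
    refine h4.trans (h5.trans (le_of_eq ?_))
    have e : ((k : ℝ) - 1) * ((2 * (q / (k - 1)) - (q / (k - 1)) ^ 2) * (w * N) + 2 * 0 +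
        2 * (gt a B - 0) * (q / (k - 1))) =
        (2 * q - q ^ 2 / (k - 1)) * (w * N) + (2 * gt a B) * q := by
      field_simp
      ring
    rw [e, hg]
    ring

/-- the weight from `S` to the complement of `B` -/
noncomputable def gs (a : V → V → ℝ) (B S : Finset V) : ℝ := ∑ x ∈ S, ∑ v, a x v * tt B v

theorem scheme_two (h01 : ∀ u v, a u v = 0 ∨ a u v = 1) (h0 : ∀ u, a u u = 0)
    (hs : ∀ u v, a u v = a v u) (hk : 3 ≤ k) (B S : Finset V) (hSB : S ⊆ B) {δ : ℝ} (hδ : 1 ≤ δ)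
    (hB : ∀ u, u ∉ B → ∑ v, a u v ≤ δ) {θ : ℝ} (hθ0 : 0 ≤ θ) (hθ1 : θ ≤ 1 / 2)
    (hθk : ((k : ℝ) - 1) * θ ≤ 4) (hS1 : θ * gt a B ≤ gs a B S) (hS2 : 2 * gs a B S ≤ gt a B) :
    ∃ c : V → Fin k, ∀ i, (1 + θ ^ 2 / 4) * (2 * gt a B) ≤
      ((k : ℝ) - 1) * (M a c i + Real.sqrt (12 * k * δ * ∑ u, ∑ v, a u v)) := by
  have hk' : (3 : ℝ) ≤ k := by exact_mod_cast hk
  have hom := om_nonneg h01 B
  have hgt := gt_nonneg h01 B
  have hk1 : (0 : ℝ) < k - 1 := by linarith
  set z1 : Fin k := ⟨0, by omega⟩ with hz1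
  set z2 : Fin k := ⟨1, by omega⟩ with hz2
  have hz : z1 ≠ z2 := by rw [hz1, hz2]; simp
  set η := θ / 8 with hη
  have hη0 : 0 ≤ η := by positivity
  set p : Fin k → ℝ := fun j => (1 + η) / (k - 1) + (if j = z1 then η - (1 + η) / (k - 1) else 0)
    + (if j = z2 then - (2 * η) else 0) with hp
  have hpz1 : p z1 = η := by rw [hp]; simp [hz]
  have hpz2 : p z2 = (1 + η) / (k - 1) - 2 * η := by rw [hp]; simp [hz.symm]; ring
  have hpj : ∀ j, j ≠ z1 → j ≠ z2 → p j = (1 + η) / (k - 1) := fun j h1 h2 => by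
    rw [hp]; simp [h1, h2]
  have hpz2' : 0 ≤ (1 + η) / (k - 1) - 2 * η := by
    rw [sub_nonneg, le_div_iff₀ hk1]
    nlinarith
  have hp0 : ∀ j, 0 ≤ p j := by
    intro j
    by_cases h1 : j = z1
    · rw [h1, hpz1]; exact hη0
    · by_cases h2 : j = z2
      · rw [h2, hpz2]; exact hpz2'
      · rw [hpj j h1 h2]; positivity
  have hp1 : ∑ j, p j = 1 := by
    rw [hp]
    simp only [sum_add_distrib, sum_const, card_univ, Fintype.card_fin, nsmul_eq_mul,
      sum_ite_eq', mem_univ, if_true]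
    field_simp
    ring
  set β : V → Fin k := fun u => if u ∈ S then z2 else z1 with hβ
  have hg2 : gg a B β z2 = gs a B S := by
    unfold gg gs
    rw [← sum_subset (subset_univ S)]
    · refine sum_congr rfl fun u hu => sum_congr rfl fun v _ => ?_
      unfold bb
      rw [if_pos ⟨hSB hu, by rw [hβ]; simp [hu]⟩, one_mul]
    · intro u _ hu
      refine sum_eq_zero fun v _ => ?_
      unfold bb
      rw [if_neg (fun h => hz (by have := h.2; rw [hβ] at this; simpa [hu] using this))]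
      ring
  have hg1 : gg a B β z1 = gt a B - gs a B S := by
    rw [← hg2]
    unfold gg gt
    rw [← sum_sub_distrib]
    refine sum_congr rfl fun u _ => ?_
    rw [← sum_sub_distrib]
    refine sum_congr rfl fun v _ => ?_
    unfold bb tt
    rw [hβ]
    by_cases hu : u ∈ B <;> by_cases hu' : u ∈ S <;> simp [hu, hu', hz, hz.symm]
  have hgj : ∀ j, j ≠ z1 → j ≠ z2 → gg a B β j = 0 := by
    intro j h1 h2
    unfold gg
    refine sum_eq_zero fun u _ => sum_eq_zero fun v _ => ?_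
    unfold bb
    rw [if_neg]
    · ring
    · rintro ⟨_, h⟩
      rw [hβ] at h
      simp only at h
      split_ifs at h
      · exact h2 h.symm
      · exact h1 h.symm
  obtain ⟨c, hc⟩ := moment h01 h0 hs hp0 hp1 B β hδ hB
  refine ⟨c, fun i => ?_⟩
  have h1 := hc i
  have h2 := mu_ge h01 hs hp0 hp1 B β i
  have h3 : 2 * gg a B β i + 2 * (gt a B - gg a B β i) * p i ≤
      M a c i + Real.sqrt (12 * k * δ * ∑ u, ∑ v, a u v) := by
    have h4 : 0 ≤ (2 * p i - p i ^ 2) * om a B := by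
      refine mul_nonneg ?_ hom
      have := p_le_one hp0 hp1 i
      have := hp0 i
      nlinarith
    linarith
  refine le_trans ?_ (mul_le_mul_of_nonneg_left h3 hk1.le)
  set g := gt a B with hg
  set x := gs a B S with hx
  by_cases hi1 : i = z1
  · rw [hi1, hg1, hpz1, hη]
    have q1 : g ≤ 2 * (g - x) := by linarith
    have q2 : θ * (θ * g) ≤ θ * x := mul_le_mul_of_nonneg_left hS1 hθ0
    have q3 : (1 + θ ^ 2 / 4) * (2 * g) ≤ 2 * (2 * (g - x) + 2 * (g - (g - x)) * (θ / 8)) := by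
      nlinarith
    refine q3.trans (mul_le_mul_of_nonneg_right (by linarith) ?_)
    have : 0 ≤ x := le_trans (by positivity) hS1
    have : 0 ≤ (g - (g - x)) * (θ / 8) := by
      have e : g - (g - x) = x := by ring
      rw [e]; positivity
    linarith
  · by_cases hi2 : i = z2
    · rw [hi2, hg2, hpz2]
      have e : ((k : ℝ) - 1) * (2 * x + 2 * (g - x) * ((1 + η) / (k - 1) - 2 * η)) =
          2 * x * (k - 1) + 2 * (g - x) * (1 + η - 2 * η * (k - 1)) := by
        field_simp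
      rw [e, hη]
      exact ineq_z2 hk' hθ0 (by linarith) hgt hS1 hS2
    · rw [hgj i hi1 hi2, hpj i hi1 hi2]
      have e : ((k : ℝ) - 1) * (2 * 0 + 2 * (g - 0) * ((1 + η) / (k - 1))) =
          (1 + η) * (2 * g) := by
        field_simp
        ring
      rw [e, hη]
      refine mul_le_mul_of_nonneg_right ?_ (by linarith)
      nlinarith

end Pool.Agent.Y341.JP
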